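import Mathlib
import Pool.Agent.Helper745.FS.B3
import Pool.Agent.Helper291.IPRCore

/-!
Ramsey consequences of a pattern property: if for every `k ≥ 2` every large finite set of integers
contains a `k`-element subset with the property `R`, then the same holds simultaneously for finitely
many injective maps, and homogeneously on infinite sets.
-/

set_option autoImplicit false

namespace Pool.Agent.H672R3.HomPat

open Finset

/-- Ramsey's theorem for the `k`-subsets of a finite set -/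
theorem ram_set (k M : ℕ) : ∃ N : ℕ, ∀ (X : Type) (S : Finset X) (P : Finset X → Prop),
    N ≤ S.card → ∃ T ⊆ S, T.card = M ∧
      ((∀ U ⊆ T, U.card = k → P U) ∨ (∀ U ⊆ T, U.card = k → ¬ P U)) := by
  classical
  obtain ⟨N, hN⟩ := Pool.Agent.Helper745.FSub.ramsey5_gen Prop k M
  refine ⟨N + 1, fun X S P hS => ?_⟩
  have hne : S.Nonempty := by rw [← card_pos]; omega
  obtain ⟨x0, hx0⟩ := hne
  let g : ℕ → X := fun n => if h : n < S.card then (S.equivFin.symm ⟨n, h⟩ : X) else x0
  have hgS : ∀ n, g n ∈ S := by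
    intro n
    by_cases h : n < S.card
    · simp only [g, dif_pos h]; exact (S.equivFin.symm ⟨n, h⟩).2
    · simp only [g, dif_neg h]; exact hx0
  have hginj : ∀ a b, a < S.card → b < S.card → g a = g b → a = b := by
    intro a b ha hb hab
    simp only [g, dif_pos ha, dif_pos hb] at hab
    have := S.equivFin.symm.injective (Subtype.ext hab)
    simpa using this
  obtain ⟨T0, hT0, hT0c, c, hc⟩ := hN (range S.card) (fun l => P (l.toFinset.image g)) (by
    rw [card_range]; omega)
  have hlt : ∀ x ∈ T0, x < S.card := fun x hx => mem_range.1 (hT0 hx)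
  have hinj0 : Set.InjOn g (T0 : Set ℕ) := fun a ha b hb hab => hginj a b (hlt a ha) (hlt b hb) hab
  have key : ∀ U ⊆ T0.image g, U.card = k → (P U = c) := by
    intro U hU hUk
    let U0 := T0.filter (fun x => g x ∈ U)
    have hU0 : U0.image g = U := by
      ext u
      simp only [U0, mem_image, mem_filter]
      constructor
      · rintro ⟨x, ⟨_, hx⟩, rfl⟩; exact hx
      · intro hu
        obtain ⟨x, hx, rfl⟩ := mem_image.1 (hU hu)
        exact ⟨x, ⟨hx, hu⟩, rfl⟩
    have hU0c : U0.card = k := by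
      rw [← hUk, ← hU0, card_image_of_injOn]
      exact hinj0.mono (by intro x hx; exact (mem_filter.1 hx).1)
    have h1 := hc (U0.sort (· ≤ ·)) (by rw [Finset.length_sort, hU0c])
      (by exact (Finset.sortedLT_sort U0).pairwise)
      (fun x hx => (mem_filter.1 ((Finset.mem_sort _).1 hx)).1)
    rw [Finset.sort_toFinset, hU0] at h1
    exact h1
  refine ⟨T0.image g, ?_, ?_, ?_⟩
  · intro x hx
    obtain ⟨n, _, rfl⟩ := mem_image.1 hx
    exact hgS n
  · rw [card_image_of_injOn hinj0, hT0c]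
  · by_cases hcc : c
    · left; intro U hU hUk; rw [key U hU hUk]; exact hcc
    · right; intro U hU hUk; rw [key U hU hUk]; exact hcc

/-- Ramsey's theorem for the `k`-subsets of an infinite set -/
theorem ram_inf (k : ℕ) {X : Type} (Y : Set X) (hY : Y.Infinite) (P : Finset X → Prop) :
    ∃ Z ⊆ Y, Z.Infinite ∧ ((∀ U : Finset X, (U : Set X) ⊆ Z → U.card = k → P U) ∨
      (∀ U : Finset X, (U : Set X) ⊆ Z → U.card = k → ¬ P U)) := by
  classical
  have := hY.to_subtype
  let e : ℕ ↪ Y := Infinite.natEmbedding Y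
  let e' : ℕ → X := fun n => (e n : X)
  have he' : Function.Injective e' := Subtype.val_injective.comp e.injective
  obtain ⟨φ, hφ, c, hc⟩ := Pool.Agent.Helper291.IPRCore.inf_ramsey (κ := Prop) k
    (fun J => P (J.image e'))
  have hinj : Function.Injective (fun n => e' (φ n)) := he'.comp hφ.injective
  have key : ∀ U : Finset X, (U : Set X) ⊆ Set.range (fun n => e' (φ n)) → U.card = k →
      (P U = c) := by
    intro U hU hUk
    obtain ⟨J, hJ⟩ : ∃ J : Finset ℕ, J.image (fun n => e' (φ n)) = U := by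
      refine ⟨U.preimage (fun n => e' (φ n)) hinj.injOn, ?_⟩
      rw [Finset.image_preimage]
      apply Finset.filter_true_of_mem
      intro x hx
      exact hU hx
    have hJc : J.card = k := by
      rw [← hUk, ← hJ, card_image_of_injective _ hinj]
    have h1 := hc J hJc
    rw [Finset.image_image] at h1
    have h2 : J.image (e' ∘ φ) = U := hJ
    rw [h2] at h1
    exact h1
  refine ⟨Set.range (fun n => e' (φ n)), ?_, Set.infinite_range_of_injective hinj, ?_⟩
  · rintro _ ⟨n, rfl⟩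
    exact (e (φ n)).2
  · by_cases hcc : c
    · left; intro U hU hUk; rw [key U hU hUk]; exact hcc
    · right; intro U hU hUk; rw [key U hU hUk]; exact hcc

/-- every set of `C` integers has a `k`-element subset with the property `R` -/
def Pat (R : Finset ℤ → Prop) (k C : ℕ) : Prop :=
  ∀ H : Finset ℤ, C ≤ H.card → ∃ S ⊆ H, S.card = k ∧ R S

open Classical in
theorem fin_maps {R : Finset ℤ → Prop} {k C0 : ℕ} (h : Pat R k C0) (m : ℕ) :
    ∃ C : ℕ, ∀ (X : Type) (S : Finset X) (f : Fin m → X → ℤ), (∀ i, Function.Injective (f i)) →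
      C ≤ S.card → ∃ T ⊆ S, T.card = k ∧ ∀ i, R (T.image (f i)) := by
  induction m with
  | zero =>
    refine ⟨k, fun X S f _ hS => ?_⟩
    obtain ⟨T, hT, hTk⟩ := Finset.exists_subset_card_eq hS
    exact ⟨T, hT, hTk, fun i => i.elim0⟩
  | succ m ih =>
    obtain ⟨C, hC⟩ := ih
    obtain ⟨N, hN⟩ := ram_set k (max C C0)
    refine ⟨N, fun X S f hf hS => ?_⟩
    obtain ⟨T, hTS, hTc, hP | hP⟩ := hN X S (fun U => R (U.image (f 0))) hS
    · obtain ⟨U, hU, hUk, hR⟩ := hC X T (fun i => f i.succ) (fun i => hf _)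
        (by rw [hTc]; exact le_max_left _ _)
      refine ⟨U, hU.trans hTS, hUk, fun i => ?_⟩
      refine Fin.cases ?_ (fun i => ?_) i
      · exact hP U hU hUk
      · exact hR i
    · exfalso
      obtain ⟨V, hV, hVk, hR⟩ := h (T.image (f 0)) (by
        rw [card_image_of_injective _ (hf 0), hTc]; exact le_max_right _ _)
      have hpre : (T.filter (fun x => f 0 x ∈ V)).image (f 0) = V := by
        ext v
        simp only [mem_image, mem_filter]
        constructor
        · rintro ⟨x, ⟨_, hx⟩, rfl⟩; exact hx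
        · intro hv
          obtain ⟨x, hx, rfl⟩ := mem_image.1 (hV hv)
          exact ⟨x, ⟨hx, hv⟩, rfl⟩
      refine hP (T.filter (fun x => f 0 x ∈ V)) (filter_subset _ _) ?_ ?_
      · rw [← hVk, ← hpre, card_image_of_injective _ (hf 0), hpre]
      · rw [hpre]; exact hR

open Classical in
theorem inf_one {R : Finset ℤ → Prop} {k C0 : ℕ} (h : Pat R k C0) {X : Type} (Y : Set X)
    (hY : Y.Infinite) (f : X → ℤ) (hf : Function.Injective f) :
    ∃ Z ⊆ Y, Z.Infinite ∧ ∀ U : Finset X, (U : Set X) ⊆ Z → U.card = k → R (U.image f) := by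
  obtain ⟨Z, hZY, hZ, hP | hP⟩ := ram_inf k Y hY (fun U => R (U.image f))
  · exact ⟨Z, hZY, hZ, hP⟩
  · exfalso
    obtain ⟨T, hT, hTc⟩ := hZ.exists_subset_card_eq C0
    obtain ⟨V, hV, hVk, hR⟩ := h (T.image f) (by rw [card_image_of_injective _ hf, hTc])
    have hpre : (T.filter (fun x => f x ∈ V)).image f = V := by
      ext v
      simp only [mem_image, mem_filter]
      constructor
      · rintro ⟨x, ⟨_, hx⟩, rfl⟩; exact hx
      · intro hv
        obtain ⟨x, hx, rfl⟩ := mem_image.1 (hV hv)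
        exact ⟨x, ⟨hx, hv⟩, rfl⟩
    refine hP (T.filter (fun x => f x ∈ V)) ?_ ?_ ?_
    · intro x hx
      exact hT (mem_filter.1 hx).1
    · rw [← hVk, ← hpre, card_image_of_injective _ hf, hpre]
    · rw [hpre]; exact hR

open Classical in
/-- finitely many pairs (map, size of the subsets) -/
theorem inf_list {R : Finset ℤ → Prop} (h : ∀ k, 2 ≤ k → ∃ C, Pat R k C) {X ι : Type}
    (f : ι → X → ℤ) (hf : ∀ i, Function.Injective (f i)) (L : Finset (ι × ℕ)) (Y : Set X)
    (hY : Y.Infinite) :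
    ∃ Z ⊆ Y, Z.Infinite ∧ ∀ p ∈ L, 2 ≤ p.2 →
      ∀ U : Finset X, (U : Set X) ⊆ Z → U.card = p.2 → R (U.image (f p.1)) := by
  induction L using Finset.induction_on with
  | empty => exact ⟨Y, subset_rfl, hY, by simp⟩
  | insert p L hp ih =>
    obtain ⟨Z, hZY, hZ, hL⟩ := ih
    by_cases h2 : 2 ≤ p.2
    · obtain ⟨C, hC⟩ := h p.2 h2
      obtain ⟨W, hWZ, hW, hR⟩ := inf_one hC Z hZ (f p.1) (hf _)
      refine ⟨W, hWZ.trans hZY, hW, fun q hq hq2 U hU hUk => ?_⟩
      rcases Finset.mem_insert.1 hq with rfl | hq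
      · exact hR U hU hUk
      · exact hL q hq hq2 U (hU.trans hWZ) hUk
    · refine ⟨Z, hZY, hZ, fun q hq hq2 U hU hUk => ?_⟩
      rcases Finset.mem_insert.1 hq with rfl | hq
      · exact absurd hq2 h2
      · exact hL q hq hq2 U hU hUk

open Classical in
/-- a sequence of maps -/
theorem diag {R : Finset ℤ → Prop} (h : ∀ k, 2 ≤ k → ∃ C, Pat R k C) (f : ℕ → ℕ → ℤ)
    (hf : ∀ i, Function.Injective (f i)) :
    ∃ s : ℕ → ℕ, StrictMono s ∧ ∀ i k j : ℕ, i ≤ j → 2 ≤ k → k ≤ j →
      ∀ U : Finset ℕ, U.card = k → (∀ u ∈ U, ∃ t, j ≤ t ∧ u = s t) → R (U.image (f i)) := by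
  have hstep : ∀ (Y : {Y : Set ℕ // Y.Infinite}) (j : ℕ), ∃ Z : {Y : Set ℕ // Y.Infinite},
      Z.1 ⊆ Y.1 ∧ ∀ i k : ℕ, i ≤ j → 2 ≤ k → k ≤ j →
        ∀ U : Finset ℕ, (U : Set ℕ) ⊆ Z.1 → U.card = k → R (U.image (f i)) := by
    intro Y j
    obtain ⟨Z, hZY, hZ, hL⟩ := inf_list h f hf ((range (j+1)) ×ˢ (range (j+1))) Y.1 Y.2
    refine ⟨⟨Z, hZ⟩, hZY, fun i k hi hk hkj U hU hUk => ?_⟩
    exact hL (i, k) (by simp; omega) hk U hU hUk
  choose ref hsub hgood using hstep
  let Y : ℕ → {Y : Set ℕ // Y.Infinite} := fun n => Nat.rec (ref ⟨Set.univ, Set.infinite_univ⟩ 0)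
    (fun j Z => ref Z (j+1)) n
  have hYs : ∀ n, Y (n+1) = ref (Y n) (n+1) := fun n => rfl
  have hmono : ∀ a b, a ≤ b → (Y b).1 ⊆ (Y a).1 := by
    intro a b hab
    induction b, hab using Nat.le_induction with
    | base => exact subset_rfl
    | succ b _ ih => rw [hYs]; exact (hsub _ _).trans ih
  have hY : ∀ j, ∀ i k : ℕ, i ≤ j → 2 ≤ k → k ≤ j →
        ∀ U : Finset ℕ, (U : Set ℕ) ⊆ (Y j).1 → U.card = k → R (U.image (f i)) := by
    intro j
    cases j with
    | zero => intro i k _ h2 h0; omega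
    | succ j => rw [hYs]; exact hgood _ _
  have hex : ∀ (j n : ℕ), ∃ x, x ∈ (Y j).1 ∧ n < x := fun j n => (Y j).2.exists_gt n
  choose c hc1 hc2 using hex
  let s : ℕ → ℕ := fun n => Nat.rec (c 0 0) (fun j x => c (j+1) x) n
  have hss : ∀ n, s (n+1) = c (n+1) (s n) := fun n => rfl
  have hsm : StrictMono s := strictMono_nat_of_lt_succ (fun n => by rw [hss]; exact hc2 _ _)
  have hsY : ∀ n, s n ∈ (Y n).1 := by
    intro n
    cases n with
    | zero => exact hc1 0 0
    | succ n => rw [hss]; exact hc1 (n+1) (s n)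
  refine ⟨s, hsm, fun i k j hij hk hkj U hUk hU => ?_⟩
  refine hY j i k hij hk hkj U ?_ hUk
  intro u hu
  obtain ⟨t, ht, rfl⟩ := hU u hu
  exact hmono j t ht (hsY t)

end Pool.Agent.H672R3.HomPat
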