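import Mathlib
import Pool.Agent.H672R3.HomPat
import Pool.Agent.H361R2.InfQMain
import Pool.Agent.H362R2.CM.Final

/-!
Common indices for finitely (or countably) many admissible sequences of linear forms.
-/

set_option autoImplicit false

namespace Pool.Agent.H672R3.Chains

open Finset

/-- the forms `A r * n + B r`, `r` in `U`, are prime for infinitely many natural numbers `n` -/
def Hit (A B : ℕ → ℤ) (U : Finset ℕ) : Prop :=
  {n : ℕ | ∀ r ∈ U, 0 < A r * (n : ℤ) + B r ∧ Prime (A r * (n : ℤ) + B r)}.Infinite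

/-- Maynard-Tao for a subset of an admissible sequence -/
theorem hit_sub (k : ℕ) : ∃ C : ℕ, ∀ (A B : ℕ → ℤ), (∀ r, 0 < A r) →
    Function.Injective (fun r => (A r, B r)) →
    (∀ p : ℕ, p.Prime → ∃ n : ℤ, ∀ r, ¬ (p : ℤ) ∣ A r * n + B r) →
    ∀ T : Finset ℕ, C ≤ T.card → ∃ U ⊆ T, U.card = k ∧ Hit A B U := by
  classical
  obtain ⟨K, hK1, hK⟩ := Pool.Agent.H362R2.CM.quarter (4 * k)
  refine ⟨4 * k * K, fun A B hA hinj hadm T hT => ?_⟩
  have hcard : Fintype.card (Fin (4 * k) × Fin K) ≤ Fintype.card T := by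
    rw [Fintype.card_prod, Fintype.card_fin, Fintype.card_fin, Fintype.card_coe]
    exact hT
  obtain ⟨φ⟩ := Function.Embedding.nonempty_of_card_le hcard
  have hφ : Function.Injective (fun x => (φ x : ℕ)) :=
    Subtype.val_injective.comp φ.injective
  obtain ⟨S, c, hS, hinf⟩ := hK (fun g i => A (φ (g, i))) (fun g i => B (φ (g, i)))
    (fun g i => hA _) (by
      intro x y hxy
      have h1 : (fun r => (A r, B r)) (φ x : ℕ) = (fun r => (A r, B r)) (φ y : ℕ) := hxy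
      exact hφ (hinj h1)) (by
      intro p hp
      obtain ⟨n, hn⟩ := hadm p hp
      exact ⟨n, fun g i => hn _⟩)
  obtain ⟨S', hS', hS'c⟩ := Finset.exists_subset_card_eq (show k ≤ S.card by omega)
  refine ⟨S'.image (fun g => (φ (g, c g) : ℕ)), ?_, ?_, ?_⟩
  · intro x hx
    obtain ⟨g, _, rfl⟩ := mem_image.1 hx
    exact (φ (g, c g)).2
  · rw [card_image_of_injective, hS'c]
    intro x y hxy
    have := hφ (a₁ := (x, c x)) (a₂ := (y, c y)) hxy
    exact (Prod.ext_iff.1 this).1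
  · refine hinf.mono ?_
    intro n hn r hr
    obtain ⟨g, hg, rfl⟩ := mem_image.1 hr
    exact hn g (hS' hg)

/-- finitely many properties -/
theorem multi (k C0 m : ℕ) : ∀ M : ℕ, ∃ C, ∀ (X : Type) (S : Finset X) (P : Fin m → Finset X → Prop),
    (∀ i, ∀ T ⊆ S, C0 ≤ T.card → ∃ U ⊆ T, U.card = k ∧ P i U) → C ≤ S.card →
    ∃ T ⊆ S, T.card = M ∧ ∀ i, ∀ U ⊆ T, U.card = k → P i U := by
  induction m with
  | zero =>
    intro M
    refine ⟨M, fun X S P _ hS => ?_⟩
    obtain ⟨T, hT, hTc⟩ := Finset.exists_subset_card_eq hS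
    exact ⟨T, hT, hTc, fun i => i.elim0⟩
  | succ m ih =>
    intro M
    obtain ⟨N, hN⟩ := Pool.Agent.H672R3.HomPat.ram_set k (max M C0)
    obtain ⟨C, hC⟩ := ih N
    refine ⟨C, fun X S P hP hS => ?_⟩
    obtain ⟨T, hTS, hTc, hT⟩ := hC X S (fun i => P i.succ) (fun i => hP _) hS
    obtain ⟨V, hVT, hVc, hV | hV⟩ := hN X T (P 0) hTc.ge
    · obtain ⟨W, hWV, hWc⟩ := Finset.exists_subset_card_eq (show M ≤ V.card by
        rw [hVc]; exact le_max_left _ _)
      refine ⟨W, hWV.trans (hVT.trans hTS), hWc, fun i => ?_⟩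
      refine Fin.cases ?_ (fun i => ?_) i
      · exact fun U hU hUk => hV U (hU.trans hWV) hUk
      · exact fun U hU hUk => hT i U (hU.trans (hWV.trans hVT)) hUk
    · exfalso
      obtain ⟨U, hU, hUk, hPU⟩ := hP 0 V (hVT.trans hTS) (by rw [hVc]; exact le_max_right _ _)
      exact hV U hU hUk hPU

/-- infinite sets, one sequence: all finite subsets -/
theorem inf_one (A B : ℕ → ℤ) (hA : ∀ r, 0 < A r)
    (hinj : Function.Injective (fun r => (A r, B r)))
    (hadm : ∀ p : ℕ, p.Prime → ∃ n : ℤ, ∀ r, ¬ (p : ℤ) ∣ A r * n + B r)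
    (Y : Set ℕ) (hY : Y.Infinite) :
    ∃ Z ⊆ Y, Z.Infinite ∧ ∀ U : Finset ℕ, (U : Set ℕ) ⊆ Z → Hit A B U := by
  classical
  obtain ⟨e, he⟩ : ∃ e : ℕ → ℕ, Function.Injective e ∧ ∀ n, e n ∈ Y := by
    have := hY.to_subtype
    let e : ℕ ↪ Y := Infinite.natEmbedding Y
    exact ⟨fun n => (e n : ℕ), Subtype.val_injective.comp e.injective, fun n => (e n).2⟩
  obtain ⟨I, hI, hT⟩ := Pool.Agent.H361R2.Inf.exact_seq_quant (fun i => A (e i)) (fun i => B (e i))
    (fun i => hA _) (by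
      intro x y hxy
      have h1 : (fun r => (A r, B r)) (e x) = (fun r => (A r, B r)) (e y) := hxy
      exact he.1 (hinj h1)) (by
      intro p hp
      obtain ⟨n, hn⟩ := hadm p hp
      have hp0 : (0 : ℤ) < p := by exact_mod_cast hp.pos
      refine ⟨(n % p).toNat, fun i hd => hn (e i) ?_⟩
      rw [Int.toNat_of_nonneg (Int.emod_nonneg _ hp0.ne')] at hd
      have h1 : (p : ℤ) ∣ n - n % p := Int.dvd_self_sub_emod
      have h2 : A (e i) * n + B (e i) = (A (e i) * (n % p) + B (e i)) + A (e i) * (n - n % p) := by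
        ring
      rw [h2]
      exact dvd_add hd (h1.mul_left _)) (1 / 2) (by norm_num)
  have hIinf : I.Infinite := by
    intro hfin
    unfold Pool.Agent.H361R2.Inf.LogDense at hI
    have h1 : Filter.Tendsto (fun X : ℕ => (Real.log X) ^ (1 - 1 / 2 : ℝ)) Filter.atTop Filter.atTop :=
      (tendsto_rpow_atTop (by norm_num)).comp
        (Real.tendsto_log_atTop.comp tendsto_natCast_atTop_atTop)
    obtain ⟨X, hX1, hX2⟩ := (hI.and_eventually (h1.eventually_gt_atTop (I.ncard : ℝ))).exists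
    have h2 : (I ∩ Set.Iio X).ncard ≤ I.ncard := Set.ncard_le_ncard Set.inter_subset_left hfin
    have h3 : ((I ∩ Set.Iio X).ncard : ℝ) ≤ I.ncard := by exact_mod_cast h2
    linarith
  refine ⟨e '' I, ?_, hIinf.image he.1.injOn, ?_⟩
  · rintro _ ⟨n, _, rfl⟩; exact he.2 n
  · intro U hU
    have h := hT (U.image fun r => (A r, B r)) (by
      intro f hf
      obtain ⟨r, _, rfl⟩ := mem_image.1 hf
      exact hA r)
    refine h.mono ?_
    intro n hn r hr
    have h1 := hn (A r, B r) (mem_image_of_mem _ hr)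
    obtain ⟨i, hi, hir⟩ := hU hr
    have h2 : Nat.Prime (A r * n + B r).toNat := h1.2 ⟨i, hi, by rw [hir]⟩
    have h3 : 0 < A r * (n : ℤ) + B r := by
      by_contra hcon
      rw [Int.toNat_of_nonpos (by omega)] at h2
      exact Nat.not_prime_zero h2
    refine ⟨h3, ?_⟩
    rw [← Int.toNat_of_nonneg h3.le]
    exact Nat.prime_iff_prime_int.1 h2

/-- countably many sequences -/
theorem inf_all (A B : ℕ → ℕ → ℤ) (hA : ∀ i r, 0 < A i r)
    (hinj : ∀ i, Function.Injective (fun r => (A i r, B i r)))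
    (hadm : ∀ i, ∀ p : ℕ, p.Prime → ∃ n : ℤ, ∀ r, ¬ (p : ℤ) ∣ A i r * n + B i r)
    (E : Set ℕ) (hE : E.Infinite) :
    ∃ J ⊆ E, J.Infinite ∧ ∀ i, ∃ N : ℕ, ∀ U : Finset ℕ, (U : Set ℕ) ⊆ J → (∀ u ∈ U, N ≤ u) →
      Hit (A i) (B i) U := by
  classical
  have hstep : ∀ (Y : {Y : Set ℕ // Y.Infinite}) (j : ℕ), ∃ Z : {Y : Set ℕ // Y.Infinite},
      Z.1 ⊆ Y.1 ∧ ∀ U : Finset ℕ, (U : Set ℕ) ⊆ Z.1 → Hit (A j) (B j) U := by
    intro Y j
    obtain ⟨Z, hZY, hZ, hL⟩ := inf_one (A j) (B j) (hA j) (hinj j) (hadm j) Y.1 Y.2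
    exact ⟨⟨Z, hZ⟩, hZY, hL⟩
  choose ref hsub hgood using hstep
  let Y : ℕ → {Y : Set ℕ // Y.Infinite} := fun n => Nat.rec (ref ⟨E, hE⟩ 0)
    (fun j Z => ref Z (j+1)) n
  have hYs : ∀ n, Y (n+1) = ref (Y n) (n+1) := fun n => rfl
  have hmono : ∀ a b, a ≤ b → (Y b).1 ⊆ (Y a).1 := by
    intro a b hab
    induction b, hab using Nat.le_induction with
    | base => exact subset_rfl
    | succ b _ ih => rw [hYs]; exact (hsub _ _).trans ih
  have hY0 : (Y 0).1 ⊆ E := hsub _ _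
  have hY : ∀ j, ∀ U : Finset ℕ, (U : Set ℕ) ⊆ (Y j).1 → Hit (A j) (B j) U := by
    intro j
    cases j with
    | zero => exact hgood _ _
    | succ j => rw [hYs]; exact hgood _ _
  have hex : ∀ (j n : ℕ), ∃ x, x ∈ (Y j).1 ∧ n < x := fun j n => (Y j).2.exists_gt n
  choose c hc1 hc2 using hex
  let s : ℕ → ℕ := fun n => Nat.rec (c 0 0) (fun j x => c (j+1) x) n
  have hss : ∀ n, s (n+1) = c (n+1) (s n) := fun n => rfl
  have hsm : StrictMono s := strictMono_nat_of_lt_succ (fun n => by rw [hss]; exact hc2 _ _)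
  have hsY : ∀ n, s n ∈ (Y n).1 := by
    intro n
    cases n with
    | zero => exact hc1 0 0
    | succ n => rw [hss]; exact hc1 (n+1) (s n)
  refine ⟨Set.range s, ?_, Set.infinite_range_of_injective hsm.injective, fun i => ⟨s i, ?_⟩⟩
  · rintro _ ⟨n, rfl⟩
    exact hY0 (hmono 0 n (Nat.zero_le n) (hsY n))
  · intro U hU hUN
    apply hY i
    intro u hu
    obtain ⟨n, rfl⟩ := hU hu
    exact hmono i n (hsm.le_iff_le.1 (hUN _ hu)) (hsY n)

end Pool.Agent.H672R3.Chains
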