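import Pool.Agent.H680R3.EX.Stmts

open MeasureTheory Polynomial Set

namespace Pool.Agent.H672R3.EX680

open Pool.Agent.H680R3.EX

theorem taskI : TaskI := by
  intro n s c hs hc
  have h2 : (0:ℝ) < 2 := by norm_num
  obtain ⟨q, hq⟩ : ∃ q : ℝ, q = (2:ℝ) ^ ((n:ℝ) + 1 - s) := ⟨_, rfl⟩
  have hq0 : 0 < q := hq ▸ Real.rpow_pos_of_pos h2 _
  have hq1 : q < 1 := hq ▸ Real.rpow_lt_one_of_one_lt_of_neg (by norm_num) (by linarith)
  have h1q : 0 < 1 - q := by linarith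
  have h2s : (0:ℝ) < 2 ^ s := Real.rpow_pos_of_pos h2 _
  refine ⟨2 * c * 2 ^ s / (1 - q), by positivity, ?_⟩
  intro T K hT hK S hS1 hS2
  have hTs : 0 < T ^ (-s) := Real.rpow_pos_of_pos hT _
  -- pieces
  let I : ℝ × (Fin (n+1) → ℤ) → Set ℝ := fun p => {ξ | |ξ - p.1| < c * (ht p.2 : ℝ) ^ (-s)}
  let P : ℕ → Set (ℝ × (Fin (n+1) → ℤ)) := fun k =>
    {p ∈ S | (ht p.2 : ℝ) ≤ 2^k * T ∧ 2^k * T / 2 ≤ (ht p.2 : ℝ)}
  have hcov : (⋃ p ∈ S, I p) ⊆ ⋃ k, ⋃ p ∈ P k, I p := by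
    intro ξ hξ
    simp only [mem_iUnion] at hξ ⊢
    obtain ⟨p, hp, hξp⟩ := hξ
    have hex : ∃ k : ℕ, (ht p.2 : ℝ) ≤ 2^k * T := by
      obtain ⟨k, hk⟩ := pow_unbounded_of_one_lt ((ht p.2 : ℝ) / T) (by norm_num : (1:ℝ) < 2)
      exact ⟨k, by rw [div_lt_iff₀ hT] at hk; exact hk.le⟩
    classical
    refine ⟨Nat.find hex, p, ⟨hp, Nat.find_spec hex, ?_⟩, hξp⟩
    rcases Nat.eq_zero_or_pos (Nat.find hex) with h0 | h0
    · rw [h0]
      have := hS1 p hp
      simp only [pow_zero, one_mul]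
      linarith
    · obtain ⟨m, hm⟩ : ∃ m, Nat.find hex = m + 1 := ⟨Nat.find hex - 1, by omega⟩
      have hmin := Nat.find_min hex (m := m) (by omega)
      push Not at hmin
      rw [hm, pow_succ]
      linarith
  have hPk : ∀ k, volume (⋃ p ∈ P k, I p) ≤
      ENNReal.ofReal ((2 * c * 2^s * K * T^(-s)) * q^k) := by
    intro k
    have hfin : (P k).Finite := (hS2 k).1.subset (fun p hp => ⟨hp.1, hp.2.1⟩)
    have hcard : ((P k).ncard : ℝ) ≤ K * (2^k)^(n+1) := by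
      refine le_trans ?_ (hS2 k).2
      have hsub : P k ⊆ {p ∈ S | (ht p.2 : ℝ) ≤ 2 ^ k * T} := fun p hp => ⟨hp.1, hp.2.1⟩
      exact_mod_cast Set.ncard_le_ncard hsub (hS2 k).1
    have hIp : ∀ p ∈ P k, volume (I p) ≤ ENNReal.ofReal (2 * (c * (2^k * T / 2) ^ (-s))) := by
      intro p hp
      have e : I p = Metric.ball p.1 (c * (ht p.2 : ℝ) ^ (-s)) := by
        ext ξ; simp [I, Metric.mem_ball, Real.dist_eq]
      rw [e, Real.volume_ball]
      apply ENNReal.ofReal_le_ofReal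
      have hpos : (0:ℝ) < 2^k * T / 2 := by positivity
      have := Real.rpow_le_rpow_of_nonpos hpos hp.2.2 (by linarith [Nat.cast_nonneg (α := ℝ) n] : -s ≤ 0)
      nlinarith
    have hbi : (⋃ p ∈ P k, I p) = ⋃ p ∈ hfin.toFinset, I p := by
      ext ξ; simp
    rw [hbi]
    refine (measure_biUnion_finset_le _ _).trans ?_
    calc ∑ p ∈ hfin.toFinset, volume (I p)
        ≤ ∑ p ∈ hfin.toFinset, ENNReal.ofReal (2 * (c * (2^k * T / 2) ^ (-s))) :=
          Finset.sum_le_sum (fun p hp => hIp p (by simpa using hp))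
      _ = ENNReal.ofReal ((P k).ncard * (2 * (c * (2^k * T / 2) ^ (-s)))) := by
          rw [Finset.sum_const, nsmul_eq_mul, Set.ncard_eq_toFinset_card _ hfin,
            ENNReal.ofReal_mul (Nat.cast_nonneg _), ENNReal.ofReal_natCast]
      _ ≤ ENNReal.ofReal ((2 * c * 2^s * K * T^(-s)) * q^k) := by
          apply ENNReal.ofReal_le_ofReal
          have e1 : ((2:ℝ)^k * T / 2) ^ (-s) = ((2:ℝ)^k)^(-s) * T^(-s) * 2^s := by
            rw [Real.div_rpow (by positivity) (by norm_num), Real.mul_rpow (by positivity) hT.le,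
              Real.rpow_neg h2.le s]
            field_simp
          have e2 : q^k = ((2:ℝ)^k)^(n+1) * ((2:ℝ)^k)^(-s) := by
            rw [hq, ← Real.rpow_natCast ((2:ℝ) ^ ((n:ℝ) + 1 - s)) k, ← Real.rpow_mul h2.le,
              ← Real.rpow_natCast (((2:ℝ)^k)) (n+1), ← Real.rpow_natCast 2 k,
              ← Real.rpow_mul h2.le, ← Real.rpow_mul h2.le, ← Real.rpow_add h2]
            congr 1
            push_cast
            ring
          rw [e1, e2]
          have hpos : 0 ≤ 2 * (c * (((2:ℝ)^k)^(-s) * T^(-s) * 2^s)) := by positivity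
          calc ((P k).ncard : ℝ) * (2 * (c * (((2:ℝ)^k)^(-s) * T^(-s) * 2^s)))
              ≤ (K * (2^k)^(n+1)) * (2 * (c * (((2:ℝ)^k)^(-s) * T^(-s) * 2^s))) :=
                mul_le_mul_of_nonneg_right hcard hpos
            _ = _ := by ring
  calc volume (⋃ p ∈ S, I p) ≤ volume (⋃ k, ⋃ p ∈ P k, I p) := measure_mono hcov
    _ ≤ ∑' k, volume (⋃ p ∈ P k, I p) := measure_iUnion_le _
    _ ≤ ∑' k, ENNReal.ofReal ((2 * c * 2^s * K * T^(-s)) * q^k) := ENNReal.tsum_le_tsum hPk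
    _ = ENNReal.ofReal (∑' k : ℕ, (2 * c * 2^s * K * T^(-s)) * q^k) := by
        rw [ENNReal.ofReal_tsum_of_nonneg]
        · intro k; positivity
        · exact (summable_geometric_of_lt_one hq0.le hq1).mul_left _
    _ = ENNReal.ofReal (2 * c * 2 ^ s / (1 - q) * K * T^(-s)) := by
        rw [tsum_mul_left, tsum_geometric_of_lt_one hq0.le hq1]
        congr 1
        field_simp

end Pool.Agent.H672R3.EX680
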