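import Pool.Agent.H672R3.Ex680I

open MeasureTheory Polynomial Set

namespace Pool.Agent.H672R3.EX680

open Pool.Agent.H680R3.EX
open Pool.Agent.Helper404 (toP)

lemma good_card (n H : ℕ) :
    {p : ℝ × (Fin (n+1) → ℤ) | Good n p.1 p.2 ∧ ht p.2 ≤ H ∧ toP p.2 ≠ 0}.Finite ∧
    {p : ℝ × (Fin (n+1) → ℤ) | Good n p.1 p.2 ∧ ht p.2 ≤ H ∧ toP p.2 ≠ 0}.ncard ≤
      n * (2*H+1)^(n+1) := by
  classical
  let B : Finset (Fin (n+1) → ℤ) := Fintype.piFinset (fun _ => Finset.Icc (-(H:ℤ)) H)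
  let F : Finset (ℝ × (Fin (n+1) → ℤ)) :=
    (B.filter (fun u => (toP u).natDegree = n)).biUnion
      (fun u => ((toP u).aroots ℝ).toFinset.image (fun α => (α, u)))
  have hsub : {p : ℝ × (Fin (n+1) → ℤ) | Good n p.1 p.2 ∧ ht p.2 ≤ H ∧ toP p.2 ≠ 0} ⊆ ↑F := by
    rintro ⟨α, u⟩ ⟨⟨h1, h2, h3, h4⟩, h5, h6⟩
    simp only at h1 h2 h3 h4 h5 h6
    simp only [F, B, Finset.coe_biUnion, Finset.mem_coe, mem_iUnion, Finset.coe_image,
      Finset.mem_filter, Fintype.mem_piFinset, Finset.mem_Icc]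
    refine ⟨u, ⟨?_, h3⟩, ?_⟩
    · intro i
      have : (u i).natAbs ≤ H :=
        (Finset.le_sup (f := fun i => (u i).natAbs) (Finset.mem_univ i)).trans h5
      omega
    · refine ⟨α, ?_, rfl⟩
      simp only [Finset.mem_coe, Multiset.mem_toFinset]
      rw [mem_aroots]
      exact ⟨h6, h4⟩
  have hB : B.card = (2*H+1)^(n+1) := by
    simp only [B, Fintype.card_piFinset, Int.card_Icc, Finset.prod_const, Finset.card_univ,
      Fintype.card_fin]
    congr 1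
    omega
  have hc : F.card ≤ n * (2*H+1)^(n+1) := by
    refine (Finset.card_biUnion_le).trans ?_
    calc ∑ u ∈ B.filter (fun u => (toP u).natDegree = n),
          (((toP u).aroots ℝ).toFinset.image (fun α => (α, u))).card
        ≤ ∑ u ∈ B.filter (fun u => (toP u).natDegree = n), n := by
          refine Finset.sum_le_sum (fun u hu => ?_)
          refine Finset.card_image_le.trans ((Multiset.toFinset_card_le _).trans ?_)
          refine (card_roots' _).trans (natDegree_map_le.trans ?_)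
          exact (Finset.mem_filter.1 hu).2.le
      _ = (B.filter (fun u => (toP u).natDegree = n)).card * n := by
          rw [Finset.sum_const, smul_eq_mul]
      _ ≤ B.card * n := Nat.mul_le_mul_right _ (Finset.card_filter_le _ _)
      _ = n * (2*H+1)^(n+1) := by rw [hB, mul_comm]
  refine ⟨F.finite_toSet.subset hsub, ?_⟩
  refine (Set.ncard_le_ncard hsub F.finite_toSet).trans ?_
  rw [Set.ncard_coe_finset]
  exact hc

lemma toP_ne_zero {n : ℕ} {α : ℝ} {u : Fin (n+1) → ℤ} (h : Good n α u) : toP u ≠ 0 := by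
  intro h0
  have := h.2.1
  rw [h0] at this
  have h2 := this 0 (by simp)
  simp at h2

theorem taskJ : TaskJ := by
  intro n hn s c hs hc ε hε
  obtain ⟨G, hG, hI⟩ := taskI n s c hs hc
  have hlim : Filter.Tendsto (fun x : ℝ => (G * n * 3^(n+1)) * x ^ (-(s - (n + 1)))) Filter.atTop
      (nhds ((G * n * 3^(n+1)) * 0)) :=
    (tendsto_rpow_neg_atTop (by linarith)).const_mul _
  rw [mul_zero] at hlim
  have hev := (hlim.comp tendsto_natCast_atTop_atTop).eventually (gt_mem_nhds hε)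
  obtain ⟨N, hN1, hN2⟩ := ((Filter.eventually_ge_atTop 1).and hev).exists
  refine ⟨N, hN1, ?_⟩
  have hN0 : (0:ℝ) < N := by exact_mod_cast hN1
  let S : Set (ℝ × (Fin (n+1) → ℤ)) := {p | Good n p.1 p.2 ∧ N ≤ ht p.2}
  have h1 : ∀ p ∈ S, (N:ℝ) ≤ (ht p.2 : ℝ) := fun p hp => by exact_mod_cast hp.2
  have h2 : ∀ k : ℕ, {p ∈ S | (ht p.2 : ℝ) ≤ 2 ^ k * (N:ℝ)}.Finite ∧
      ({p ∈ S | (ht p.2 : ℝ) ≤ 2 ^ k * (N:ℝ)}.ncard : ℝ) ≤
        ((n:ℝ) * (3 * N)^(n+1)) * (2 ^ k) ^ (n + 1) := by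
    intro k
    have hsub : {p ∈ S | (ht p.2 : ℝ) ≤ 2 ^ k * (N:ℝ)} ⊆
        {p : ℝ × (Fin (n+1) → ℤ) | Good n p.1 p.2 ∧ ht p.2 ≤ 2^k * N ∧ toP p.2 ≠ 0} := by
      rintro p ⟨hp1, hp2⟩
      exact ⟨hp1.1, by exact_mod_cast hp2, toP_ne_zero hp1.1⟩
    obtain ⟨g1, g2⟩ := good_card n (2^k * N)
    refine ⟨g1.subset hsub, ?_⟩
    have h3 := (Set.ncard_le_ncard hsub g1).trans g2
    have h4 : ({p ∈ S | (ht p.2 : ℝ) ≤ 2 ^ k * (N:ℝ)}.ncard : ℝ) ≤
      (n:ℝ) * (2*(2^k*N)+1)^(n+1) := by exact_mod_cast h3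
    refine h4.trans ?_
    have h5 : (1:ℝ) ≤ 2^k * N := by
      have : (1:ℝ) ≤ 2^k := one_le_pow₀ (by norm_num)
      have h6 : (1:ℝ) ≤ N := by exact_mod_cast hN1
      nlinarith
    calc (n:ℝ) * (2*(2^k*N)+1)^(n+1) ≤ (n:ℝ) * ((3*N)*2^k)^(n+1) := by
          apply mul_le_mul_of_nonneg_left _ (Nat.cast_nonneg _)
          apply pow_le_pow_left₀ (by positivity)
          nlinarith
      _ = _ := by rw [mul_pow]; ring
  have h3 := hI N ((n:ℝ) * (3 * N)^(n+1)) hN0 (by positivity) S h1 h2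
  refine (measure_mono ?_).trans (h3.trans (ENNReal.ofReal_le_ofReal ?_))
  · rintro ξ ⟨_, α, u, hg, hu, hξ⟩
    simp only [mem_iUnion]
    exact ⟨(α, u), ⟨hg, hu⟩, hξ⟩
  · have h4 : (G * n * 3^(n+1)) * (N:ℝ) ^ (-(s - (n + 1))) < ε := hN2
    refine le_trans (le_of_eq ?_) h4.le
    have e : (N:ℝ) ^ (-(s - (n + 1))) = (N:ℝ)^(n+1) * (N:ℝ)^(-s) := by
      rw [← Real.rpow_natCast, ← Real.rpow_add hN0]
      congr 1
      push_cast
      ring
    rw [e, mul_pow]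
    ring

end Pool.Agent.H672R3.EX680
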