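import Pool.Agent.H672R3.Ex680J

open MeasureTheory Polynomial Set

namespace Pool.Agent.H672R3.EX680

open Pool.Agent.H680R3.EX
open Pool.Agent.Helper404 (toP)

lemma isOpen_Bad (n : ℕ) (s c : ℝ) (N : ℕ) : IsOpen (Bad n s c N) := by
  have e : Bad n s c N = ⋃ (α : ℝ), ⋃ (u : Fin (n+1) → ℤ), ⋃ (_ : Good n α u ∧ N ≤ ht u),
      {ξ : ℝ | |ξ - α| < c * (ht u : ℝ) ^ (-s)} := by
    ext ξ
    simp only [Bad, mem_setOf_eq, mem_iUnion, exists_prop, and_assoc]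
  rw [e]
  refine isOpen_iUnion fun α => isOpen_iUnion fun u => isOpen_iUnion fun _ => ?_
  exact isOpen_lt (by fun_prop) continuous_const

lemma step (hK : Key) (n : ℕ) (hn : 2 ≤ n) (s c₁ c₂ : ℝ) (hs : (n : ℝ) + 1 < s) (h1 : 0 < c₁)
    (h12 : c₁ < c₂) (N : ℕ) (hN : 1 ≤ N) (a b : ℝ) (ha : 0 ≤ a) (hb : b ≤ 1)
    (hab : volume (Ioo a b \ Bad n s c₁ N) ≠ 0) (M : ℕ) :
    ∃ a' b' : ℝ, ∃ (α : ℝ) (u : Fin (n+1) → ℤ), a ≤ a' ∧ b' ≤ b ∧
      volume (Ioo a' b' \ Bad n s c₁ N) ≠ 0 ∧ Good n α u ∧ M ≤ ht u ∧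
      ∀ ξ ∈ Icc a' b', |ξ - α| < c₂ * (ht u : ℝ) ^ (-s) := by
  obtain ⟨α, u, hg, hM, hv⟩ := hK n hn s c₁ c₂ hs h1 h12 N hN a b ha hb hab M
  set r := c₂ * (ht u : ℝ) ^ (-s) with hr
  set A := max a (α - r) with hA
  set B := min b (α + r) with hB
  have e : {ξ ∈ Ioo a b | |ξ - α| < r} = Ioo A B := by
    ext ξ
    simp only [mem_setOf_eq, mem_Ioo, abs_lt, hA, hB, max_lt_iff, lt_min_iff]
    constructor
    · rintro ⟨⟨x1, x2⟩, x3, x4⟩
      exact ⟨⟨x1, by linarith⟩, x2, by linarith⟩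
    · rintro ⟨⟨x1, x3⟩, x2, x4⟩
      exact ⟨⟨x1, x2⟩, by linarith, by linarith⟩
  rw [e] at hv
  have hU : Ioo A B \ Bad n s c₁ N ⊆
      ⋃ m : ℕ, (Ioo (A + 1 / ((m:ℝ)+1)) (B - 1 / ((m:ℝ)+1)) \ Bad n s c₁ N) := by
    rintro ξ ⟨⟨x1, x2⟩, x3⟩
    obtain ⟨m, hm⟩ := exists_nat_one_div_lt (show 0 < min (ξ - A) (B - ξ) from
      lt_min (by linarith) (by linarith))
    obtain ⟨m1, m2⟩ := lt_min_iff.1 hm
    refine mem_iUnion.2 ⟨m, ⟨?_, ?_⟩, x3⟩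
    · linarith
    · linarith
  have hex : ∃ m : ℕ, volume (Ioo (A + 1 / ((m:ℝ)+1)) (B - 1 / ((m:ℝ)+1)) \ Bad n s c₁ N) ≠ 0 := by
    by_contra hcon
    push Not at hcon
    exact hv (measure_mono_null hU (measure_iUnion_null hcon))
  obtain ⟨m, hm⟩ := hex
  have hm0 : (0:ℝ) < 1 / ((m:ℝ)+1) := by positivity
  refine ⟨A + 1 / ((m:ℝ)+1), B - 1 / ((m:ℝ)+1), α, u, ?_, ?_, hm, hg, hM, ?_⟩
  · have := le_max_left a (α - r)
    linarith
  · have := min_le_left b (α + r)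
    linarith
  · rintro ξ ⟨x1, x2⟩
    have : ξ ∈ Ioo A B := ⟨by linarith, by linarith⟩
    rw [← e] at this
    exact this.2

theorem taskL (hK : Key) : TaskL := by
  intro n hn s c₁ c₂ hs h1 h12
  obtain ⟨N, hN1, hN⟩ := taskJ n (by omega) s c₁ hs h1 (1/2) (by norm_num)
  have h0 : volume (Ioo (0:ℝ) 1 \ Bad n s c₁ N) ≠ 0 := by
    intro h0
    have hsub : Ioo (0:ℝ) 1 ⊆ (Ioo (0:ℝ) 1 \ Bad n s c₁ N) ∪
        {ξ ∈ Icc (-1 : ℝ) 2 | ∃ (α : ℝ) (u : Fin (n + 1) → ℤ), Good n α u ∧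
          N ≤ ht u ∧ |ξ - α| < c₁ * (ht u : ℝ) ^ (-s)} := by
      intro ξ hξ
      by_cases hB : ξ ∈ Bad n s c₁ N
      · right
        exact ⟨⟨by linarith [hξ.1], by linarith [hξ.2]⟩, hB⟩
      · left
        exact ⟨hξ, hB⟩
    have h3 := (measure_mono (μ := volume) hsub).trans (measure_union_le _ _)
    rw [h0, zero_add, Real.volume_Ioo] at h3
    have h4 := h3.trans hN
    rw [ENNReal.ofReal_le_ofReal_iff (by norm_num)] at h4
    norm_num at h4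
  -- the states
  let St := {p : ℝ × ℝ // 0 ≤ p.1 ∧ p.2 ≤ 1 ∧ volume (Ioo p.1 p.2 \ Bad n s c₁ N) ≠ 0}
  have hstep : ∀ (p : St) (M : ℕ), ∃ (q : St) (α : ℝ) (u : Fin (n+1) → ℤ),
      Icc q.1.1 q.1.2 ⊆ Icc p.1.1 p.1.2 ∧ Good n α u ∧ M ≤ ht u ∧
      ∀ ξ ∈ Icc q.1.1 q.1.2, |ξ - α| < c₂ * (ht u : ℝ) ^ (-s) := by
    intro p M
    obtain ⟨a', b', α, u, g1, g2, g3, g4, g5, g6⟩ :=
      step hK n hn s c₁ c₂ hs h1 h12 N hN1 p.1.1 p.1.2 p.2.1 p.2.2.1 p.2.2.2 M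
    exact ⟨⟨(a', b'), p.2.1.trans g1, g2.trans p.2.2.1, g3⟩, α, u, Icc_subset_Icc g1 g2, g4, g5, g6⟩
  choose nxt al uu g1 g2 g3 g4 using hstep
  let sq : ℕ → St := fun k => Nat.rec ⟨(0, 1), le_refl _, le_refl _, h0⟩
    (fun k st => nxt st (max N k)) k
  have hsq : ∀ k, sq (k+1) = nxt (sq k) (max N k) := fun k => rfl
  obtain ⟨ξ, hξ⟩ : (⋂ k, (Icc (sq k).1.1 (sq k).1.2 \ Bad n s c₁ N)).Nonempty := by
    apply IsCompact.nonempty_iInter_of_sequence_nonempty_isCompact_isClosed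
    · intro k
      apply diff_subset_diff_left
      rw [hsq]
      exact g1 _ _
    · intro k
      by_contra hemp
      rw [not_nonempty_iff_eq_empty] at hemp
      apply (sq k).2.2.2
      refine measure_mono_null (diff_subset_diff_left Ioo_subset_Icc_self) ?_
      rw [hemp]
      exact measure_empty
    · exact isCompact_Icc.diff (isOpen_Bad n s c₁ N)
    · intro k
      exact isClosed_Icc.sdiff (isOpen_Bad n s c₁ N)
  rw [mem_iInter] at hξ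
  have hnb : ξ ∉ Bad n s c₁ N := (hξ 0).2
  refine ⟨ξ, ?_, ?_⟩
  · intro hfin
    have hfin2 : ({α : ℝ | ∃ u : Fin (n + 1) → ℤ, Good n α u ∧
        |ξ - α| < c₂ * (ht u : ℝ) ^ (-s)} \ {ξ}).Finite := hfin.subset diff_subset
    have hcl := hfin2.isClosed
    have hmem : ξ ∈ ({α : ℝ | ∃ u : Fin (n + 1) → ℤ, Good n α u ∧
        |ξ - α| < c₂ * (ht u : ℝ) ^ (-s)} \ {ξ})ᶜ := by
      intro h
      exact h.2 rfl
    obtain ⟨δ, hδ, hball⟩ := Metric.isOpen_iff.1 hcl.isOpen_compl ξ hmem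
    have hlim : Filter.Tendsto (fun x : ℝ => c₂ * x ^ (-s)) Filter.atTop (nhds (c₂ * 0)) :=
      (tendsto_rpow_neg_atTop (by linarith [Nat.cast_nonneg (α := ℝ) n])).const_mul _
    rw [mul_zero] at hlim
    have hev := (hlim.comp tendsto_natCast_atTop_atTop).eventually (gt_mem_nhds hδ)
    obtain ⟨k, hk1, hk2⟩ := ((Filter.eventually_ge_atTop 1).and hev).exists
    have hk3 : c₂ * (k:ℝ) ^ (-s) < δ := hk2
    have hgood := g2 (sq k) (max N k)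
    have hht := g3 (sq k) (max N k)
    have hcl2 := g4 (sq k) (max N k) ξ (by rw [← hsq]; exact (hξ (k+1)).1)
    set α := al (sq k) (max N k) with hα
    set u := uu (sq k) (max N k) with hu
    have hk0 : (0:ℝ) < k := by exact_mod_cast hk1
    have hkh : (k:ℝ) ≤ ht u := by exact_mod_cast (le_max_right N k).trans hht
    have h5 : |ξ - α| < δ := by
      refine hcl2.trans_le (le_trans ?_ hk3.le)
      apply mul_le_mul_of_nonneg_left _ (by linarith)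
      exact Real.rpow_le_rpow_of_nonpos hk0 hkh (by linarith [Nat.cast_nonneg (α := ℝ) n])
    have h6 : α ∈ ({α : ℝ | ∃ u : Fin (n + 1) → ℤ, Good n α u ∧
        |ξ - α| < c₂ * (ht u : ℝ) ^ (-s)} \ {ξ})ᶜ := by
      apply hball
      rw [Metric.mem_ball, Real.dist_eq, abs_sub_comm]
      exact h5
    have h7 : α = ξ := by
      by_contra hne
      exact h6 ⟨⟨u, hgood, hcl2⟩, hne⟩
    apply hnb
    refine ⟨α, u, hgood, (le_max_left N k).trans hht, ?_⟩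
    rw [h7, sub_self, abs_zero]
    have : (0:ℝ) < ht u := hk0.trans_le hkh
    positivity
  · refine ((good_card n N).1.image Prod.fst).subset ?_
    rintro α ⟨u, hg, hu⟩
    refine ⟨(α, u), ⟨hg, ?_, toP_ne_zero hg⟩, rfl⟩
    by_contra hcon
    exact hnb ⟨α, u, hg, by simp only at hcon; omega, hu⟩

end Pool.Agent.H672R3.EX680
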