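import Pool.Agent.H672R3.SimRec

set_option autoImplicit false

/-! Subsequences all of whose difference vectors are limit points of the vectors of consecutive prime gaps
divided by the record scale. -/

open Finset Filter Topology

namespace Pool.Agent.H672R3.InfRec

open Pool.Agent.H256R2.SC (ff t1 t2)
open Pool.Agent.H312R2.RG.C3 (ff_tendsto ff_lower ff_small ff_slow)
open Pool.Agent.H672R3.SimRec

/-- the limit points, along the blocks of `m + 1` consecutive primes in the classes `a i (mod q)`, of the vectors of the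
`m` gaps divided by `ff` -/
def Lim (m q : ℕ) (a : Fin (m + 1) → ℕ) : Set (Fin m → ℝ) :=
  {v | ∀ ε : ℝ, 0 < ε → ∃ᶠ n : ℕ in atTop,
    (∀ i : Fin (m + 1), Nat.nth Nat.Prime (n + i) ≡ a i [MOD q]) ∧
    ∀ i : Fin m, |((Nat.nth Nat.Prime (n + i + 1) : ℝ) - Nat.nth Nat.Prime (n + i)) /
      ff (Nat.nth Nat.Prime n) - v i| < ε}

theorem exists_min_pos {ι : Type} [Finite ι] (ε : ι → ℝ) (h : ∀ i, 0 < ε i) :
    ∃ η : ℝ, 0 < η ∧ ∀ i, η ≤ ε i := by
  cases isEmpty_or_nonempty ι with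
  | inl hι => exact ⟨1, one_pos, fun i => isEmptyElim i⟩
  | inr hι =>
    obtain ⟨i0, hi0⟩ := Finite.exists_min ε
    exact ⟨ε i0, h i0, hi0⟩

theorem scale_ev (c : ℝ) (hc : 0 < c) : ∀ᶠ X : ℝ in atTop, Real.log X ≤ c * ff X := by
  filter_upwards [ff_lower, t2.eventually_ge_atTop (1 / c), t1.eventually_gt_atTop 0] with X h1 h2 h3
  have h4 : 1 ≤ Real.log (Real.log X) * c := (div_le_iff₀ hc).1 h2
  have h5 : Real.log X * 1 ≤ Real.log X * (Real.log (Real.log X) * c) :=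
    mul_le_mul_of_nonneg_left h4 h3.le
  have h6 : c * (Real.log X * Real.log (Real.log X)) ≤ c * ff X := mul_le_mul_of_nonneg_left h1 hc.le
  nlinarith

theorem lp (m : ℕ) : ∃ K : ℕ, ∃ c : ℝ, 0 < c ∧ ∀ q : ℕ, Squarefree q →
    ∀ β : Fin K → ℝ, StrictMono β → (∀ j, 0 < β j ∧ β j ≤ c) →
    ∀ a : Fin K → ℕ, (∀ j, (a j).Coprime q) →
    ∃ j : Fin (m + 1) → Fin K, StrictMono j ∧
      (fun i : Fin m => β (j i.succ) - β (j i.castSucc)) ∈ Lim m q (fun i => a (j i)) := by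
  classical
  obtain ⟨K, c, hc, hw⟩ := window m
  refine ⟨K, c, hc, ?_⟩
  intro q hq β hβ hβc a ha
  by_contra hcon
  push Not at hcon
  have h1 : ∀ j : Fin (m + 1) → Fin K, ∃ ε : ℝ, 0 < ε ∧ (StrictMono j → ∀ᶠ n : ℕ in atTop,
      ¬ ((∀ i : Fin (m + 1), Nat.nth Nat.Prime (n + i) ≡ a (j i) [MOD q]) ∧
      ∀ i : Fin m, |((Nat.nth Nat.Prime (n + i + 1) : ℝ) - Nat.nth Nat.Prime (n + i)) /
        ff (Nat.nth Nat.Prime n) - (β (j i.succ) - β (j i.castSucc))| < ε)) := by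
    intro j
    by_cases hj : StrictMono j
    · have h2 := hcon j hj
      simp only [Lim, Set.mem_setOf_eq, not_forall, not_frequently] at h2
      obtain ⟨ε, hε, h3⟩ := h2
      exact ⟨ε, hε, fun _ => h3⟩
    · exact ⟨1, one_pos, fun h => absurd h hj⟩
  choose εf hεf hev using h1
  obtain ⟨ε, hε, hεle⟩ := exists_min_pos εf hεf
  have hev2 : ∀ᶠ n : ℕ in atTop, ∀ j : Fin (m + 1) → Fin K, StrictMono j →
      ¬ ((∀ i : Fin (m + 1), Nat.nth Nat.Prime (n + i) ≡ a (j i) [MOD q]) ∧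
      ∀ i : Fin m, |((Nat.nth Nat.Prime (n + i + 1) : ℝ) - Nat.nth Nat.Prime (n + i)) /
        ff (Nat.nth Nat.Prime n) - (β (j i.succ) - β (j i.castSucc))| < ε) := by
    rw [eventually_all]
    intro j
    by_cases hj : StrictMono j
    · filter_upwards [hev j hj] with n hn _ hn2
      exact hn ⟨hn2.1, fun i => (hn2.2 i).trans_le (hεle j)⟩
    · exact Eventually.of_forall fun n hn => absurd hn hj
  obtain ⟨N₀, hN₀⟩ := eventually_atTop.1 hev2
  set δ : ℝ := min 1 (ε / (4 * c)) with hδ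
  have hδ0 : 0 < δ := by positivity
  have hδ1 : δ ≤ 1 := min_le_left _ _
  have hδε : δ * (4 * c) ≤ ε := by
    have := min_le_right 1 (ε / (4 * c))
    rw [← hδ, le_div_iff₀ (by positivity)] at this
    exact this
  obtain ⟨X, hX, hXs, hXsl, hXN, hX0, hXf⟩ := ((hw δ hδ0 q hq).and ((scale_ev c hc).and
    ((ff_slow δ hδ0).and ((eventually_ge_atTop ((Nat.nth Nat.Prime N₀ : ℕ) : ℝ)).and
    ((eventually_gt_atTop 0).and (ff_tendsto.eventually_gt_atTop 0)))))).exists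
  obtain ⟨j, hj, hcard⟩ := hX (c * ff X) hXs le_rfl (fun j => β j / c)
    (fun i j hij => div_lt_div_of_pos_right (hβ hij) hc)
    (fun j => ⟨div_nonneg (hβc j).1.le hc.le, (div_le_one hc).2 (hβc j).2⟩) a ha
  have hne : (Occ m q (fun i => a (j i)) X (c * ff X) δ
      (fun i => β (j i.succ) / c - β (j i.castSucc) / c)).Nonempty := by
    by_contra hemp
    rw [Set.not_nonempty_iff_eq_empty] at hemp
    rw [hemp, Set.ncard_empty, Nat.cast_zero] at hcard
    exact absurd hcard (not_le.2 (Real.rpow_pos_of_pos hX0 _))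
  obtain ⟨n₀, hn1, hn2, hn3, hn4⟩ := hne
  have hn₀ : N₀ ≤ n₀ := by
    by_contra hlt
    push Not at hlt
    have h2 : Nat.nth Nat.Prime n₀ < Nat.nth Nat.Prime N₀ :=
      Nat.nth_strictMono Nat.infinite_setOf_prime hlt
    have h3 : ((Nat.nth Nat.Prime n₀ : ℕ) : ℝ) < (Nat.nth Nat.Prime N₀ : ℕ) := by exact_mod_cast h2
    linarith
  refine hN₀ n₀ hn₀ j hj ⟨hn3, fun i => ?_⟩
  have h4 := hn4 i
  have hP2 : ((Nat.nth Nat.Prime n₀ : ℕ) : ℝ) ≤ 4 * X := by
    refine le_trans ?_ hn2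
    exact_mod_cast (Nat.nth_strictMono Nat.infinite_setOf_prime).monotone (Nat.le_add_right n₀ m)
  have h5 := (hXsl _ hn1.le hP2).le
  set g : ℝ := (Nat.nth Nat.Prime (n₀ + i + 1) : ℝ) - Nat.nth Nat.Prime (n₀ + i) with hg
  set F : ℝ := ff X with hF
  set P : ℝ := ff ((Nat.nth Nat.Prime n₀ : ℕ) : ℝ) with hP
  set u := β (j i.succ) with hu
  set v := β (j i.castSucc) with hv
  have hu1 := hβc (j i.succ)
  have hv1 := hβc (j i.castSucc)
  have q1 : |g / F - (u - v)| ≤ c * δ := by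
    have e1 : g / F - (u - v) = c * (g / (c * F) - (u / c - v / c)) := by
      field_simp
    rw [e1, abs_mul, abs_of_pos hc]
    exact mul_le_mul_of_nonneg_left h4 hc.le
  have q2 : |g / F| ≤ c + c * δ := by
    have e1 : |u - v| ≤ c := by
      rw [abs_le]; constructor <;> linarith [hu1.1, hu1.2, hv1.1, hv1.2]
    calc |g / F| = |(g / F - (u - v)) + (u - v)| := by ring_nf
      _ ≤ |g / F - (u - v)| + |u - v| := abs_add_le _ _
      _ ≤ _ := by linarith
  have e2 : g / P - (u - v) = (g / F - (u - v)) + (g / F) * (F / P - 1) := by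
    by_cases hP0 : P = 0
    · exfalso
      rw [hP0, div_zero, zero_sub, abs_neg, abs_one] at h5
      have h6 := hXsl _ hn1.le hP2
      change |F / P - 1| < δ at h6
      rw [hP0, div_zero, zero_sub, abs_neg, abs_one] at h6
      linarith
    · field_simp
      ring
  rw [e2]
  calc |(g / F - (u - v)) + (g / F) * (F / P - 1)|
      ≤ |g / F - (u - v)| + |(g / F) * (F / P - 1)| := abs_add_le _ _
    _ = |g / F - (u - v)| + |g / F| * |F / P - 1| := by rw [abs_mul]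
    _ ≤ c * δ + (c + c * δ) * δ := by
        apply add_le_add q1
        exact mul_le_mul q2 h5 (abs_nonneg _) (by positivity)
    _ < ε := by nlinarith [mul_pos hc hδ0]

/-- the vector of the differences belonging to the set `U` of indices is a limit point -/
def GV (m q : ℕ) (a : ℕ → ℕ) (β : ℕ → ℝ) (U : Finset ℕ) : Prop :=
  ∃ h : U.card = m + 1, (fun i : Fin m => β (U.orderEmbOfFin h (Fin.rev i.succ)) -
    β (U.orderEmbOfFin h (Fin.rev i.castSucc))) ∈ Lim m q (fun i => a (U.orderEmbOfFin h (Fin.rev i)))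

theorem inf_step (m q : ℕ) (hq : Squarefree q) (β : ℕ → ℝ) (hβ : StrictAnti β) (hβ0 : ∀ j, 0 < β j)
    (ht : Tendsto β atTop (𝓝 0)) (a : ℕ → ℕ) (ha : ∀ j, (a j).Coprime q) (Y : Set ℕ)
    (hY : Y.Infinite) :
    ∃ Z ⊆ Y, Z.Infinite ∧ ∀ U : Finset ℕ, (U : Set ℕ) ⊆ Z → U.card = m + 1 → GV m q a β U := by
  classical
  obtain ⟨Z, hZY, hZ, hP | hP⟩ := Pool.Agent.H672R3.HomPat.ram_inf (m + 1) Y hY (GV m q a β)
  · exact ⟨Z, hZY, hZ, hP⟩
  · exfalso
    obtain ⟨K, c, hc, hlp⟩ := lp m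
    obtain ⟨N1, hN1⟩ := eventually_atTop.1 (ht.eventually (ge_mem_nhds hc))
    have hZ' : (Z ∩ Set.Ici N1).Infinite := by
      intro hfin
      apply hZ
      refine (hfin.union (Set.finite_Iio N1)).subset ?_
      intro z hz
      by_cases h : N1 ≤ z
      · exact Or.inl ⟨hz, h⟩
      · exact Or.inr (by simpa using h)
    obtain ⟨T, hT, hTc⟩ := hZ'.exists_subset_card_eq K
    set e := T.orderEmbOfFin hTc with he
    have heT : ∀ i, e i ∈ T := fun i => Finset.orderEmbOfFin_mem _ _ _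
    obtain ⟨j, hj, hlim⟩ := hlp q hq (fun i => β (e (Fin.rev i)))
      (fun x y hxy => hβ (e.strictMono (Fin.rev_lt_rev.2 hxy)))
      (fun i => ⟨hβ0 _, hN1 _ (hT (heT (Fin.rev i))).2⟩) (fun i => a (e (Fin.rev i))) (fun i => ha _)
    set U : Finset ℕ := univ.image (fun i => e (Fin.rev (j (Fin.rev i)))) with hU
    have hmono : StrictMono (fun i => e (Fin.rev (j (Fin.rev i)))) := fun x y hxy =>
      e.strictMono (Fin.rev_lt_rev.2 (hj (Fin.rev_lt_rev.2 hxy)))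
    have hUc : U.card = m + 1 := by
      rw [hU, card_image_of_injective _ hmono.injective]; simp
    have hUe : (fun i => e (Fin.rev (j (Fin.rev i)))) = U.orderEmbOfFin hUc :=
      Finset.orderEmbOfFin_unique hUc (fun x => mem_image.2 ⟨x, mem_univ _, rfl⟩) hmono
    have h1 : ∀ i, U.orderEmbOfFin hUc (Fin.rev i) = e (Fin.rev (j i)) := by
      intro i
      rw [← hUe]
      simp only [Fin.rev_rev]
    refine hP U ?_ hUc ⟨hUc, ?_⟩
    · intro u hu
      obtain ⟨i, _, rfl⟩ := mem_image.1 (Finset.mem_coe.1 hu)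
      exact (hT (heT _)).1
    · simp only [h1]
      exact hlim

/-- diagonal sequences -/
theorem diag_gen (P : ℕ → Set ℕ → Prop) (hher : ∀ r Z Z', Z' ⊆ Z → P r Z → P r Z')
    (hstep : ∀ r (Y : Set ℕ), Y.Infinite → ∃ Z ⊆ Y, Z.Infinite ∧ P r Z) :
    ∃ φ : ℕ → ℕ, StrictMono φ ∧ ∀ r, P r (φ '' Set.Ici r) := by
  have hstep' : ∀ (Y : {Y : Set ℕ // Y.Infinite}) (r : ℕ), ∃ Z : {Y : Set ℕ // Y.Infinite},
      Z.1 ⊆ Y.1 ∧ P r Z.1 := by
    intro Y r
    obtain ⟨Z, h1, h2, h3⟩ := hstep r Y.1 Y.2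
    exact ⟨⟨Z, h2⟩, h1, h3⟩
  choose ref hsub hgood using hstep'
  let Y : ℕ → {Y : Set ℕ // Y.Infinite} := fun n => Nat.rec (ref ⟨Set.univ, Set.infinite_univ⟩ 0)
    (fun j Z => ref Z (j+1)) n
  have hYs : ∀ n, Y (n+1) = ref (Y n) (n+1) := fun n => rfl
  have hmono : ∀ a b, a ≤ b → (Y b).1 ⊆ (Y a).1 := by
    intro a b hab
    induction b, hab using Nat.le_induction with
    | base => exact subset_rfl
    | succ b _ ih => rw [hYs]; exact (hsub _ _).trans ih
  have hY : ∀ j, P j (Y j).1 := by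
    intro j
    cases j with
    | zero => exact hgood _ _
    | succ j => rw [hYs]; exact hgood _ _
  have hex : ∀ (j n : ℕ), ∃ x, x ∈ (Y j).1 ∧ n < x := fun j n => (Y j).2.exists_gt n
  choose c hc1 hc2 using hex
  let s : ℕ → ℕ := fun n => Nat.rec (c 0 0) (fun j x => c (j+1) x) n
  have hss : ∀ n, s (n+1) = c (n+1) (s n) := fun n => rfl
  have hsm : StrictMono s := strictMono_nat_of_lt_succ (fun n => by rw [hss]; exact hc2 _ _)
  have hsY : ∀ n, s n ∈ (Y n).1 := by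
    intro n
    cases n with
    | zero => exact hc1 0 0
    | succ n => rw [hss]; exact hc1 (n+1) (s n)
  refine ⟨s, hsm, fun r => hher r _ _ ?_ (hY r)⟩
  rintro _ ⟨t, ht, rfl⟩
  exact hmono r t ht (hsY t)

theorem subsequence (q : ℕ → ℕ) (hq : ∀ s, Squarefree (q s)) (β : ℕ → ℕ → ℝ)
    (hβ : ∀ s, StrictAnti (β s)) (hβ0 : ∀ s j, 0 < β s j)
    (ht : ∀ s, Tendsto (β s) atTop (𝓝 0)) (a : ℕ → ℕ → ℕ) (ha : ∀ s j, (a s j).Coprime (q s)) :
    ∃ φ : ℕ → ℕ, StrictMono φ ∧ ∀ s m : ℕ, ∃ N : ℕ, ∀ i : Fin (m + 1) → ℕ, StrictAnti i →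
      (∀ r, N ≤ i r) →
      (fun r : Fin m => β s (φ (i r.succ)) - β s (φ (i r.castSucc))) ∈
        Lim m (q s) (fun r => a s (φ (i r))) := by
  classical
  obtain ⟨φ, hφ, h⟩ := diag_gen (fun r Z => ∀ U : Finset ℕ, (U : Set ℕ) ⊆ Z →
      U.card = (Nat.unpair r).2 + 1 →
      GV (Nat.unpair r).2 (q (Nat.unpair r).1) (a (Nat.unpair r).1) (β (Nat.unpair r).1) U)
    (fun r Z Z' hZ h U hU hUc => h U (hU.trans hZ) hUc)
    (fun r Y hY => inf_step _ _ (hq _) _ (hβ _) (hβ0 _) (ht _) _ (ha _) Y hY)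
  refine ⟨φ, hφ, fun s m => ⟨Nat.pair s m, fun i hi hN => ?_⟩⟩
  have h1 := h (Nat.pair s m)
  rw [Nat.unpair_pair] at h1
  set U : Finset ℕ := univ.image (fun r => φ (i (Fin.rev r))) with hU
  have hmono : StrictMono (fun r => φ (i (Fin.rev r))) := fun x y hxy =>
    hφ (hi (Fin.rev_lt_rev.2 hxy))
  have hUc : U.card = m + 1 := by
    rw [hU, card_image_of_injective _ hmono.injective]; simp
  have hUe : (fun r => φ (i (Fin.rev r))) = U.orderEmbOfFin hUc :=
    Finset.orderEmbOfFin_unique hUc (fun x => mem_image.2 ⟨x, mem_univ _, rfl⟩) hmono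
  have h2 : ∀ r, U.orderEmbOfFin hUc (Fin.rev r) = φ (i r) := by
    intro r
    rw [← hUe]
    simp only [Fin.rev_rev]
  obtain ⟨h3, h4⟩ := h1 U (by
    intro u hu
    obtain ⟨r, _, rfl⟩ := mem_image.1 (Finset.mem_coe.1 hu)
    exact ⟨i (Fin.rev r), hN _, rfl⟩) hUc
  simp only [h2] at h4
  exact h4

end Pool.Agent.H672R3.InfRec
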