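import Mathlib
import Pool.Agent.H825R3.Ram
import Pool.Agent.H265R2.CritP4

/-!
Ramsey consequences of a difference property: if every set of `C₀` integers contains two elements
whose distance has the property `D`, then the same holds simultaneously for finitely many injective
maps, and the set of the scales `k` such that `k r` has the property `D` for all `r` in a given
finite set is syndetic (additively and multiplicatively).
-/

set_option autoImplicit false

namespace Pool.Agent.H672R3.Sim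

/-- every set of at least `C` integers has two elements whose distance has the property `D` -/
def DeltaStar (D : ℕ → Prop) (C : ℕ) : Prop :=
  ∀ S : Finset ℤ, C ≤ S.card → ∃ a ∈ S, ∃ b ∈ S, a ≠ b ∧ D (a - b).natAbs

lemma natAbs_swap (a b : ℤ) : (a - b).natAbs = (b - a).natAbs := by
  rw [← Int.natAbs_neg, neg_sub]

theorem sim {D : ℕ → Prop} {C0 : ℕ} (h : DeltaStar D C0) (m : ℕ) :
    ∃ C : ℕ, ∀ (X : Type) (S : Finset X) (f : Fin m → X → ℤ), (∀ i, Function.Injective (f i)) →
      C ≤ S.card → ∃ x ∈ S, ∃ y ∈ S, x ≠ y ∧ ∀ i, D (f i x - f i y).natAbs := by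
  classical
  induction m with
  | zero =>
    refine ⟨2, fun X S f _ hS => ?_⟩
    obtain ⟨x, hx, y, hy, hxy⟩ := Finset.one_lt_card.1 (show 1 < S.card by omega)
    exact ⟨x, hx, y, hy, hxy, fun i => i.elim0⟩
  | succ m ih =>
    obtain ⟨C, hC⟩ := ih
    refine ⟨2 ^ (C + C0), fun X S f hf hS => ?_⟩
    let G : SimpleGraph X :=
      { Adj := fun x y => x ≠ y ∧ D (f 0 x - f 0 y).natAbs
        symm := ⟨fun x y hxy => ⟨hxy.1.symm, by rw [natAbs_swap]; exact hxy.2⟩⟩
        loopless := ⟨fun x hx => hx.1 rfl⟩ }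
    rcases Pool.Agent.H265R2.CritP4.ramsey G (C + C0) C C0 le_rfl S hS with
      ⟨T, hTS, hT, hadj⟩ | ⟨T, hTS, hT, hadj⟩
    · obtain ⟨x, hx, y, hy, hxy, hD⟩ := hC X T (fun i => f i.succ) (fun i => hf _) hT.ge
      refine ⟨x, hTS hx, y, hTS hy, hxy, fun i => ?_⟩
      refine Fin.cases ?_ (fun i => ?_) i
      · exact (hadj x hx y hy hxy).2
      · exact hD i
    · exfalso
      obtain ⟨a, ha, b, hb, hab, hD⟩ := h (T.image (f 0)) (by
        rw [Finset.card_image_of_injective _ (hf 0), hT])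
      obtain ⟨x, hx, rfl⟩ := Finset.mem_image.1 ha
      obtain ⟨y, hy, rfl⟩ := Finset.mem_image.1 hb
      exact hadj x hx y hy ⟨fun hxy => hab (by rw [hxy]), hD⟩

theorem sim_inf {D : ℕ → Prop} {C0 : ℕ} (h : DeltaStar D C0) (m : ℕ) (X : Type) [Infinite X]
    (f : Fin m → X → ℤ) (hf : ∀ i, Function.Injective (f i)) :
    ∃ Y : Set X, Y.Infinite ∧ ∀ x ∈ Y, ∀ y ∈ Y, x ≠ y → ∀ i, D (f i x - f i y).natAbs := by
  obtain ⟨C, hC⟩ := sim h m
  let e : ℕ ↪ X := Infinite.natEmbedding X
  obtain ⟨g, hg, hP | hP⟩ := Pool.Agent.H825R3.ramsey_two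
    (fun a b => ∀ i, D (f i (e a) - f i (e b)).natAbs)
  · refine ⟨Set.range (fun n => e (g n)), Set.infinite_range_of_injective
      (e.injective.comp hg.injective), ?_⟩
    rintro _ ⟨a, rfl⟩ _ ⟨b, rfl⟩ hab i
    rcases lt_trichotomy a b with hlt | heq | hlt
    · exact hP a b hlt i
    · exact absurd (by rw [heq]) hab
    · rw [natAbs_swap]; exact hP b a hlt i
  · exfalso
    obtain ⟨a, -, b, -, hab, hD⟩ := hC ℕ (Finset.range C) (fun i n => f i (e (g n)))
      (fun i => (hf i).comp (e.injective.comp hg.injective)) (by simp)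
    rcases lt_or_gt_of_ne hab with hlt | hlt
    · exact hP a b hlt hD
    · exact hP b a hlt (fun i => by rw [natAbs_swap]; exact hD i)

/-- dilations -/
theorem dil {D : ℕ → Prop} {C0 : ℕ} (h : DeltaStar D C0) (F : Finset ℕ) (hF : 0 ∉ F) :
    ∃ C : ℕ, DeltaStar (fun k => ∀ r ∈ F, D (k * r)) C := by
  classical
  obtain ⟨C, hC⟩ := sim h F.card
  refine ⟨C, fun S hS => ?_⟩
  let e := F.equivFin.symm
  obtain ⟨a, ha, b, hb, hab, hD⟩ := hC ℤ S (fun i x => ((e i : ℕ) : ℤ) * x) (by
    intro i x y hxy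
    have h0 : ((e i : ℕ) : ℤ) ≠ 0 := by
      intro h0
      apply hF
      have h1 : (e i : ℕ) = 0 := by exact_mod_cast h0
      rw [← h1]
      exact (e i).2
    exact mul_left_cancel₀ h0 hxy) hS
  refine ⟨a, ha, b, hb, hab, fun r hr => ?_⟩
  have h1 := hD (e.symm ⟨r, hr⟩)
  simp only [Equiv.apply_symm_apply] at h1
  rw [← mul_sub, Int.natAbs_mul, Int.natAbs_natCast, mul_comm] at h1
  exact h1

/-- multiplicatively syndetic -/
theorem mult_synd {D : ℕ → Prop} {C : ℕ} (h : DeltaStar D C) (N : ℕ) (hN : 1 ≤ N) :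
    ∃ k : ℕ, 1 ≤ k ∧ k ≤ C ∧ D (k * N) := by
  classical
  obtain ⟨a, ha, b, hb, hab, hD⟩ := h ((Finset.range (C + 1)).image (fun j : ℕ => (N : ℤ) * j)) (by
    rw [Finset.card_image_of_injective, Finset.card_range]
    · omega
    · intro x y hxy
      have h0 : (N : ℤ) ≠ 0 := by exact_mod_cast (by omega : N ≠ 0)
      exact_mod_cast mul_left_cancel₀ h0 hxy)
  obtain ⟨i, hi, rfl⟩ := Finset.mem_image.1 ha
  obtain ⟨j, hj, rfl⟩ := Finset.mem_image.1 hb
  rw [Finset.mem_range] at hi hj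
  rw [← mul_sub, Int.natAbs_mul, Int.natAbs_natCast, mul_comm] at hD
  refine ⟨((i : ℤ) - j).natAbs, ?_, ?_, hD⟩
  · have : i ≠ j := fun hij => hab (by rw [hij])
    omega
  · omega

/-- additively syndetic -/
theorem add_synd {D : ℕ → Prop} {C : ℕ} (h : DeltaStar D C) :
    ∃ L : ℕ, ∀ x : ℕ, ∃ k : ℕ, x < k ∧ k ≤ x + L ∧ D k := by
  classical
  by_contra hcon
  push Not at hcon
  have key : ∀ n : ℕ, ∃ (S : Finset ℤ) (M : ℕ), S.card = n ∧ (∀ s ∈ S, 0 ≤ s ∧ s ≤ M) ∧
      ∀ a ∈ S, ∀ b ∈ S, a ≠ b → ¬ D (a - b).natAbs := by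
    intro n
    induction n with
    | zero => exact ⟨∅, 0, by simp, by simp, by simp⟩
    | succ n ih =>
      obtain ⟨S, M, hS, hM, hD⟩ := ih
      obtain ⟨x, hx⟩ := hcon (M + 1)
      have hnew : ∀ s ∈ S, ¬ D (((x + M + 1 : ℕ) : ℤ) - s).natAbs := by
        intro s hs
        obtain ⟨h1, h2⟩ := hM s hs
        apply hx
        · omega
        · omega
      have hnot : ((x + M + 1 : ℕ) : ℤ) ∉ S := by
        intro hmem
        have := (hM _ hmem).2
        push_cast at this
        omega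
      refine ⟨insert ((x + M + 1 : ℕ) : ℤ) S, x + M + 1, ?_, ?_, ?_⟩
      · rw [Finset.card_insert_of_notMem hnot, hS]
      · intro s hs
        rcases Finset.mem_insert.1 hs with rfl | hs
        · exact ⟨by positivity, le_rfl⟩
        · obtain ⟨h1, h2⟩ := hM s hs
          exact ⟨h1, by push_cast; omega⟩
      · intro a ha b hb hab
        rcases Finset.mem_insert.1 ha with rfl | ha
        · rcases Finset.mem_insert.1 hb with rfl | hb
          · exact absurd rfl hab
          · exact hnew b hb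
        · rcases Finset.mem_insert.1 hb with rfl | hb
          · rw [natAbs_swap]; exact hnew a ha
          · exact hD a ha b hb hab
  obtain ⟨S, M, hS, _, hD⟩ := key C
  obtain ⟨a, ha, b, hb, hab, h1⟩ := h S hS.ge
  exact hD a ha b hb hab h1

end Pool.Agent.H672R3.Sim
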