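import Pool.Agent.H362R2.RQ.Fin
import Pool.Agent.H362R2.RQ.Place
import Pool.Agent.H312R2.RG.C3
import Pool.Agent.H672R3.HomPat

set_option autoImplicit false

/-! Simultaneous patterns of prime gaps at all scales up to the record scale: the coloured Maynard-Tao
theorem inside record windows and Ramsey's theorem. -/

open Finset Filter

namespace Pool.Agent.H672R3.SimRec

open Pool.Agent.H256R2.SC (ff)
open Pool.Agent.H312R2.RG.C3 (ff_tendsto ff_lower ff_small)
open Pool.Agent.H378R2 (yy)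
open Pool.Agent.H362R2.RQ

/-- the indices `n` of the blocks `p_n, ..., p_(n+m)` of consecutive primes in `(X, 4X]` with
`p_(n+i) ≡ a i (mod q)` and `(p_(n+i+1) - p_(n+i)) / H` within `δ` of `v i` -/
def Occ (m q : ℕ) (a : Fin (m + 1) → ℕ) (X H δ : ℝ) (v : Fin m → ℝ) : Set ℕ :=
  {n | X < (Nat.nth Nat.Prime n : ℝ) ∧ (Nat.nth Nat.Prime (n + m) : ℝ) ≤ 4 * X ∧
    (∀ i : Fin (m + 1), Nat.nth Nat.Prime (n + i) ≡ a i [MOD q]) ∧
    ∀ i : Fin m, |((Nat.nth Nat.Prime (n + i + 1) : ℝ) - Nat.nth Nat.Prime (n + i)) / H - v i| ≤ δ}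

theorem occ_finite (m q : ℕ) (a : Fin (m + 1) → ℕ) (X H δ : ℝ) (v : Fin m → ℝ) :
    (Occ m q a X H δ v).Finite := by
  refine (Set.finite_Iic ⌊4 * X⌋₊).subset ?_
  rintro n ⟨-, h2, -⟩
  refine Nat.le_floor (le_trans ?_ h2)
  have h3 : n + m ≤ Nat.nth Nat.Prime (n + m) :=
    (Nat.nth_strictMono Nat.infinite_setOf_prime).le_apply
  exact_mod_cast (Nat.le_add_right n m).trans h3

theorem prime_all (q : ℕ) (hq : 0 < q) (δ : ℝ) (hδ : 0 < δ) :
    ∀ᶠ y : ℝ in atTop, ∀ a : ℕ, a.Coprime q →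
      ∃ p : ℕ, p.Prime ∧ p ≡ a [MOD q] ∧ y < p ∧ (p : ℝ) ≤ (1 + δ) * y := by
  have h1 : ∀ᶠ y : ℝ in atTop, ∀ r ∈ Finset.range q, r.Coprime q →
      ∃ p : ℕ, p.Prime ∧ p ≡ r [MOD q] ∧ y < p ∧ (p : ℝ) ≤ (1 + δ) * y := by
    rw [Filter.eventually_all_finset]
    intro r _
    by_cases hr : r.Coprime q
    · filter_upwards [exists_prime_mod q hq r hr δ hδ] with y hy _ using hy
    · exact Eventually.of_forall fun y h => absurd h hr
  filter_upwards [h1] with y hy a ha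
  have h2 : (a % q).Coprime q := by
    rw [Nat.Coprime, ← Nat.gcd_rec, Nat.gcd_comm]
    exact ha
  obtain ⟨p, hp, hpa, h3, h4⟩ := hy (a % q) (Finset.mem_range.2 (Nat.mod_lt _ hq)) h2
  exact ⟨p, hp, hpa.trans (Nat.mod_modEq a q), h3, h4⟩

theorem rpow_ev (N : ℕ) : ∀ᶠ X : ℝ in atTop, (N : ℝ) * X ^ (7 / 8 : ℝ) ≤ X ^ (9 / 10 : ℝ) := by
  have h1 : Tendsto (fun X : ℝ => X ^ (1 / 40 : ℝ)) atTop atTop := tendsto_rpow_atTop (by norm_num)
  filter_upwards [h1.eventually_ge_atTop (N : ℝ), eventually_gt_atTop (0 : ℝ)] with X h2 h3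
  have h4 : X ^ (9 / 10 : ℝ) = X ^ (1 / 40 : ℝ) * X ^ (7 / 8 : ℝ) := by
    rw [← Real.rpow_add h3]; norm_num
  rw [h4]
  exact mul_le_mul_of_nonneg_right h2 (Real.rpow_nonneg h3.le _)

theorem window (m : ℕ) : ∃ K : ℕ, ∃ c : ℝ, 0 < c ∧ ∀ δ : ℝ, 0 < δ → ∀ q : ℕ, Squarefree q →
    ∀ᶠ X : ℝ in atTop, ∀ H : ℝ, Real.log X ≤ H → H ≤ c * ff X →
    ∀ β : Fin K → ℝ, StrictMono β → (∀ j, 0 ≤ β j ∧ β j ≤ 1) →
    ∀ a : Fin K → ℕ, (∀ j, (a j).Coprime q) →
    ∃ j : Fin (m + 1) → Fin K, StrictMono j ∧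
      X ^ (7 / 8 : ℝ) ≤ ((Occ m q (fun i => a (j i)) X H δ
        (fun i => β (j i.succ) - β (j i.castSucc))).ncard : ℝ) := by
  classical
  obtain ⟨η, hη, hst⟩ := stRQ
  set M : ℕ := ⌈((m : ℝ) + 1) / η⌉₊ + 1 with hM
  have hM0 : 0 < M := by omega
  have hηM : (m : ℝ) + 1 ≤ η * M := by
    have h1 := Nat.le_ceil (((m : ℝ) + 1) / η)
    rw [div_le_iff₀ hη] at h1
    rw [hM]; push_cast
    nlinarith
  obtain ⟨K, hMK, c0, hc0, hz⟩ := hst M hM0
  refine ⟨K, c0 / 4, by positivity, ?_⟩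
  intro δ hδ q hqsf
  have hq0 : 0 < q := Nat.pos_of_ne_zero hqsf.ne_zero
  obtain ⟨X1, hX1⟩ := hz q
  set δ₁ : ℝ := min δ 1 / 8 with hδ₁
  have hδ₁0 : 0 < δ₁ := by rw [hδ₁]; positivity
  have hδ₁1 : δ₁ ≤ 1 / 8 := by
    rw [hδ₁]; have := min_le_right δ 1; linarith
  have hδ₁δ : δ₁ ≤ δ / 8 := by
    rw [hδ₁]; have := min_le_left δ 1; linarith
  set ε : ℝ := δ₁ / (4 * (K + 1)) with hε
  have hKr : (0 : ℝ) < K + 1 := by positivity
  have hε0 : 0 < ε := by positivity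
  have hεK : ε * (4 * (K + 1)) = δ₁ := by
    rw [hε]; field_simp
  obtain ⟨Y0, hY0⟩ := eventually_atTop.1 (prime_all q hq0 ε hε0)
  filter_upwards [eventually_ge_atTop X1, Real.tendsto_log_atTop.eventually_ge_atTop (max Y0 1),
    ff_small c0 hc0, rpow_ev (Fintype.card (Fin (m + 1) → Fin K)), eventually_gt_atTop (0 : ℝ)]
    with X hXX1 hlX hsm hrp hX0
  intro H hH1 hH2 β hβ hβ01 a ha
  have hlY : Y0 ≤ Real.log X := (le_max_left _ _).trans hlX
  have hl1 : 1 ≤ Real.log X := (le_max_right _ _).trans hlX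
  have hH0 : 1 ≤ H := hl1.trans hH1
  have hHpos : 0 < H := by linarith
  -- the shifts
  set y : Fin K → ℝ := fun j => H * (1 + β j + δ₁ * (j : ℕ) / (K + 1)) with hy
  have hfrac : ∀ j : Fin K, 0 ≤ δ₁ * (j : ℕ) / (K + 1) ∧ δ₁ * (j : ℕ) / (K + 1) + δ₁ / (K + 1) ≤ δ₁ := by
    intro j
    refine ⟨by positivity, ?_⟩
    rw [← add_div, div_le_iff₀ hKr]
    have : ((j : ℕ) : ℝ) + 1 ≤ K := by exact_mod_cast j.2
    nlinarith
  have hd0 : 0 < δ₁ / (K + 1) := by positivity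
  have hyl : ∀ j, H ≤ y j := by
    intro j
    have h1 := (hβ01 j).1
    have h2 := (hfrac j).1
    simp only [hy]
    nlinarith
  have hyu : ∀ j, y j ≤ 3 * H := by
    intro j
    have h1 := (hβ01 j).2
    have h2 := (hfrac j).2
    simp only [hy]
    nlinarith
  have hex : ∀ j, ∃ p : ℕ, p.Prime ∧ p ≡ a j [MOD q] ∧ y j < p ∧ (p : ℝ) ≤ (1 + ε) * y j :=
    fun j => hY0 (y j) (by linarith [hyl j]) (a j) (ha j)
  choose t htp hta ht1 ht2 using hex
  have hεH : ∀ j, (t j : ℝ) ≤ y j + 3 / 4 * (δ₁ / (K + 1)) * H := by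
    intro j
    have h1 := ht2 j
    have h2 : ε * y j ≤ ε * (3 * H) := mul_le_mul_of_nonneg_left (hyu j) hε0.le
    have h3 : ε * 4 = δ₁ / (K + 1) := by rw [hε]; field_simp
    have h4 : ε * (3 * H) = 3 / 4 * (δ₁ / (K + 1)) * H := by rw [← h3]; ring
    nlinarith
  have htmono : StrictMono t := by
    intro i j hij
    have h1 : y i + δ₁ / (K + 1) * H ≤ y j := by
      have h2 := (hβ hij).le
      have h3 : ((i : ℕ) : ℝ) + 1 ≤ (j : ℕ) := by exact_mod_cast hij
      have h4 : δ₁ * (i : ℕ) / (K + 1) + δ₁ / (K + 1) ≤ δ₁ * (j : ℕ) / (K + 1) := by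
        rw [← add_div]
        apply div_le_div_of_nonneg_right _ hKr.le
        nlinarith
      simp only [hy]
      nlinarith
    have h5 : (t i : ℝ) < t j := by
      have h6 := hεH i
      have h7 := ht1 j
      have h8 : 0 < δ₁ / (K + 1) * H := mul_pos hd0 hHpos
      nlinarith
    exact_mod_cast h5
  have ht4 : ∀ j, (t j : ℝ) ≤ 4 * H := by
    intro j
    have h1 := hεH j
    have h2 := hyu j
    have h3 : δ₁ / (K + 1) ≤ 1 := by
      have := (hfrac j).2
      have := (hfrac j).1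
      linarith
    nlinarith
  have htB : ∀ j, (t j : ℝ) ≤ c0 * ff X := by
    intro j
    have := ht4 j
    linarith
  have hclose : ∀ j, |(t j : ℝ) - H * (1 + β j)| ≤ δ₁ * H := by
    intro j
    have h1 := ht1 j
    have h2 := hεH j
    obtain ⟨h3, h4⟩ := hfrac j
    have h5 : y j = H * (1 + β j) + (δ₁ * (j : ℕ) / (K + 1)) * H := by simp only [hy]; ring
    rw [abs_le]
    constructor
    · have : 0 ≤ (δ₁ * (j : ℕ) / (K + 1)) * H := mul_nonneg h3 hHpos.le
      have : 0 ≤ δ₁ * H := by positivity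
      linarith
    · have h6 : (δ₁ * (j : ℕ) / (K + 1)) * H + 3 / 4 * (δ₁ / (K + 1)) * H ≤ δ₁ * H := by
        have h7 : (δ₁ * (j : ℕ) / (K + 1)) + 3 / 4 * (δ₁ / (K + 1)) ≤ δ₁ := by linarith
        nlinarith
      linarith
  -- the exceptional set
  by_contra hcon
  push Not at hcon
  set V : (Fin (m + 1) → Fin K) → Set ℕ := fun j =>
    Occ m q (fun i => a (j i)) X H δ (fun i => β (j i.succ) - β (j i.castSucc)) with hV
  have hVfin : ∀ j, (V j).Finite := fun j => occ_finite _ _ _ _ _ _ _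
  set bad : Finset ℕ := (univ.filter (fun j : Fin (m + 1) → Fin K => StrictMono j)).biUnion
    (fun j => (hVfin j).toFinset.image (fun n₀ => Nat.nth Nat.Prime n₀ - t (j 0))) with hbad
  have hbadc : (bad.card : ℝ) ≤ X ^ (9 / 10 : ℝ) := by
    have h1 : (bad.card : ℝ) ≤ ∑ j ∈ univ.filter (fun j : Fin (m + 1) → Fin K => StrictMono j),
        X ^ (7 / 8 : ℝ) := by
      have h2 : bad.card ≤ ∑ j ∈ univ.filter (fun j : Fin (m + 1) → Fin K => StrictMono j),
          ((hVfin j).toFinset.image (fun n₀ => Nat.nth Nat.Prime n₀ - t (j 0))).card :=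
        card_biUnion_le
      have h3 : (bad.card : ℝ) ≤ ∑ j ∈ univ.filter (fun j : Fin (m + 1) → Fin K => StrictMono j),
          (((hVfin j).toFinset.image (fun n₀ => Nat.nth Nat.Prime n₀ - t (j 0))).card : ℝ) := by
        exact_mod_cast h2
      refine h3.trans (Finset.sum_le_sum fun j hj => ?_)
      have h4 : (((hVfin j).toFinset.image (fun n₀ => Nat.nth Nat.Prime n₀ - t (j 0))).card : ℝ) ≤
          ((V j).ncard : ℝ) := by
        rw [Set.ncard_eq_toFinset_card _ (hVfin j)]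
        exact_mod_cast card_image_le
      exact h4.trans (hcon j (mem_filter.1 hj).2).le
    rw [Finset.sum_const, nsmul_eq_mul] at h1
    refine h1.trans (le_trans ?_ hrp)
    apply mul_le_mul_of_nonneg_right _ (Real.rpow_nonneg hX0.le _)
    exact_mod_cast (card_filter_le _ _)
  obtain ⟨n, hn1, hn2, hnb, ⟨D, hD1, hD2⟩, hs, hzn⟩ := hX1 X hXX1 t htmono.injective
    (fun j => ⟨htp j, by
      have h1 : (yy X : ℝ) ≤ Real.log X / 1000 := Nat.floor_le (by positivity)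
      have h2 : (yy X : ℝ) < t j := by
        have := ht1 j
        have := hyl j
        linarith
      exact_mod_cast h2, htB j⟩) (cmod K M hM0) (fib_cmod K M hM0 hMK) bad hbadc
  have hqn : q ∣ n := dvd_of_primes q n hqsf (fun p hp hpq => hzn p hp (Nat.le_of_dvd hq0 hpq))
  have hcard : m + 1 ≤ ((univ : Finset (Fin K)).filter (fun j => (n + t j).Prime)).card := by
    have h1 : D ⊆ ((univ : Finset (Fin K)).filter (fun j => (n + t j).Prime)).image (cmod K M hM0) := by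
      intro d hd
      obtain ⟨j, hj1, hj2⟩ := hD2 d hd
      exact mem_image.2 ⟨j, mem_filter.2 ⟨mem_univ _, hj2⟩, hj1⟩
    have h2 := (card_le_card h1).trans card_image_le
    have h3 : ((m : ℝ) + 1) ≤ D.card := hηM.trans hD1
    have h4 : m + 1 ≤ D.card := by exact_mod_cast h3
    omega
  obtain ⟨j, hj, n₀, hnth⟩ := Pool.Agent.H312R2.RG.C3.consecutive t htmono n (c0 * ff X) htB hcard hs
  have hp0 : Nat.nth Nat.Prime n₀ = n + t (j 0) := by
    have := hnth 0
    simpa using this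
  apply hnb
  rw [hbad, mem_biUnion]
  refine ⟨j, mem_filter.2 ⟨mem_univ _, hj⟩, mem_image.2 ⟨n₀, ?_, by rw [hp0]; omega⟩⟩
  rw [Set.Finite.mem_toFinset]
  refine ⟨?_, ?_, ?_, ?_⟩
  · rw [hp0]; push_cast
    have : (0 : ℝ) ≤ t (j 0) := Nat.cast_nonneg _
    linarith
  · have h1 := hnth (Fin.last m)
    rw [Fin.val_last] at h1
    rw [h1]; push_cast
    have h2 := htB (j (Fin.last m))
    linarith
  · intro i
    rw [hnth i]
    have h1 : n + t (j i) ≡ 0 + a (j i) [MOD q] :=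
      Nat.ModEq.add ((Nat.modEq_zero_iff_dvd).2 hqn) (hta (j i))
    simpa using h1
  · intro i
    have hA : Nat.nth Nat.Prime (n₀ + i) = n + t (j i.castSucc) := by
      have := hnth i.castSucc
      simpa using this
    have hB : Nat.nth Nat.Prime (n₀ + i + 1) = n + t (j i.succ) := by
      have := hnth i.succ
      simpa [add_assoc] using this
    rw [hA, hB]
    push_cast
    have h1 := hclose (j i.succ)
    have h2 := hclose (j i.castSucc)
    have h3 : ((n : ℝ) + t (j i.succ) - (n + t (j i.castSucc))) / H - (β (j i.succ) - β (j i.castSucc))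
        = (((t (j i.succ) : ℝ) - H * (1 + β (j i.succ)))
          - ((t (j i.castSucc) : ℝ) - H * (1 + β (j i.castSucc)))) / H := by
      field_simp
      ring
    rw [h3, abs_div, abs_of_pos hHpos, div_le_iff₀ hHpos]
    refine (abs_sub _ _).trans ?_
    nlinarith

/-- Ramsey's theorem for `l` properties which every `K0`-set has for some of its `k`-subsets -/
theorem fin_sys (k K0 l : ℕ) : ∃ C : ℕ, ∀ (X : Type) (S : Finset X) (G : Fin l → Finset X → Prop),
    (∀ s, ∀ T ⊆ S, T.card = K0 → ∃ U ⊆ T, U.card = k ∧ G s U) → C ≤ S.card →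
    ∃ T ⊆ S, T.card = k ∧ ∀ s, G s T := by
  classical
  induction l with
  | zero =>
    refine ⟨k, fun X S G _ hS => ?_⟩
    obtain ⟨T, hT, hTk⟩ := Finset.exists_subset_card_eq hS
    exact ⟨T, hT, hTk, fun i => i.elim0⟩
  | succ l ih =>
    obtain ⟨C, hC⟩ := ih
    obtain ⟨N, hN⟩ := Pool.Agent.H672R3.HomPat.ram_set k (max C K0)
    refine ⟨N, fun X S G hG hS => ?_⟩
    obtain ⟨T, hTS, hTc, hP | hP⟩ := hN X S (G 0) hS
    · obtain ⟨U, hUT, hUk, hU⟩ := hC X T (fun s => G s.succ)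
        (fun s T' hT' hT'c => hG s.succ T' (hT'.trans hTS) hT'c) (by rw [hTc]; exact le_max_left _ _)
      refine ⟨U, hUT.trans hTS, hUk, fun s => ?_⟩
      refine Fin.cases ?_ (fun s => ?_) s
      · exact hP U hUT hUk
      · exact hU s
    · exfalso
      obtain ⟨T', hT', hT'c⟩ := Finset.exists_subset_card_eq
        (show K0 ≤ T.card by rw [hTc]; exact le_max_right _ _)
      obtain ⟨U, hU, hUk, hGU⟩ := hG 0 T' (hT'.trans hTS) hT'c
      exact hP U (hU.trans hT') hUk hGU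

theorem simultaneous (m : ℕ) : ∃ c : ℝ, 0 < c ∧ ∀ l : ℕ, ∃ K : ℕ, ∀ δ : ℝ, 0 < δ →
    ∀ q : Fin l → ℕ, (∀ s, Squarefree (q s)) → ∀ᶠ X : ℝ in atTop,
    ∀ (H : Fin l → ℝ) (β : Fin l → Fin K → ℝ) (a : Fin l → Fin K → ℕ),
      (∀ s, Real.log X ≤ H s ∧ H s ≤ c * ff X) → (∀ s, StrictMono (β s)) →
      (∀ s j, 0 ≤ β s j ∧ β s j ≤ 1) → (∀ s j, (a s j).Coprime (q s)) →
      ∃ j : Fin (m + 1) → Fin K, StrictMono j ∧ ∀ s,
        X ^ (7 / 8 : ℝ) ≤ ((Occ m (q s) (fun i => a s (j i)) X (H s) δ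
          (fun i => β s (j i.succ) - β s (j i.castSucc))).ncard : ℝ) := by
  classical
  obtain ⟨K0, c, hc, hw⟩ := window m
  refine ⟨c, hc, fun l => ?_⟩
  obtain ⟨C, hC⟩ := fin_sys (m + 1) K0 l
  refine ⟨C, fun δ hδ q hq => ?_⟩
  have hev := eventually_all.2 fun s : Fin l => hw δ hδ (q s) (hq s)
  filter_upwards [hev] with X hX H β a hH hβ hβ01 ha
  obtain ⟨T, -, hTk, hT⟩ := hC (Fin C) univ (fun s U => ∃ h : U.card = m + 1,
    X ^ (7 / 8 : ℝ) ≤ ((Occ m (q s) (fun i => a s (U.orderEmbOfFin h i)) X (H s) δ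
          (fun i => β s (U.orderEmbOfFin h i.succ) - β s (U.orderEmbOfFin h i.castSucc))).ncard : ℝ))
    (by
      intro s T _ hTc
      set e := T.orderEmbOfFin hTc with he
      obtain ⟨j, hj, hjX⟩ := hX s (H s) (hH s).1 (hH s).2 (fun i => β s (e i))
        ((hβ s).comp e.strictMono) (fun i => hβ01 s _) (fun i => a s (e i)) (fun i => ha s _)
      have hej : StrictMono (fun i => e (j i)) := e.strictMono.comp hj
      set U : Finset (Fin C) := univ.image (fun i => e (j i)) with hU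
      have hUc : U.card = m + 1 := by
        rw [hU, card_image_of_injective _ hej.injective]; simp
      have hUe : (fun i => e (j i)) = U.orderEmbOfFin hUc :=
        Finset.orderEmbOfFin_unique hUc (fun x => mem_image.2 ⟨x, mem_univ _, rfl⟩) hej
      refine ⟨U, ?_, hUc, hUc, ?_⟩
      · intro u hu
        obtain ⟨i, _, rfl⟩ := mem_image.1 hu
        exact Finset.orderEmbOfFin_mem _ _ _
      · have h1 : ∀ i, U.orderEmbOfFin hUc i = e (j i) := fun i => (congrFun hUe i).symm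
        simp only [h1]
        exact hjX)
    (by simp)
  refine ⟨T.orderEmbOfFin hTk, (T.orderEmbOfFin hTk).strictMono, fun s => ?_⟩
  obtain ⟨_, h⟩ := hT s
  exact h

end Pool.Agent.H672R3.SimRec
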