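import Pool.Agent.Helper770.VanKampen

set_option autoImplicit false

open Set Complex

namespace Pool.Agent.H672R3.Task571D

open Pool.Agent.Helper770.VanKampen

/-- clamp to `[0,1]` -/
noncomputable def cl (t : ℝ) : ℝ := max 0 (min 1 t)

lemma cl_mem (t : ℝ) : cl t ∈ Icc (0:ℝ) 1 := ⟨le_max_left _ _, max_le (by norm_num) (min_le_left _ _)⟩

lemma cl_cont : Continuous cl := by unfold cl; fun_prop

lemma cl_zero : cl 0 = 0 := by simp [cl]

lemma cl_one : cl 1 = 1 := by simp [cl]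

lemma cl_of_le {t : ℝ} (h : t ≤ 0) : cl t = 0 := by
  unfold cl
  rw [min_eq_right (by linarith), max_eq_left h]

lemma cl_of_ge {t : ℝ} (h : 1 ≤ t) : cl t = 1 := by
  unfold cl
  rw [min_eq_left h, max_eq_right (by norm_num)]

/-- The half-plane form of the non-planarity of `K_{3,3}`. -/
theorem k33_half (y y' : ℂ) (hy : 0 < y.im) (hy' : 0 < y'.im)
    (γ γ' : Fin 3 → ℝ → ℂ)
    (hc : ∀ i, ContinuousOn (γ i) (Icc 0 1)) (hc' : ∀ i, ContinuousOn (γ' i) (Icc 0 1))
    (h0 : ∀ i, γ i 0 = y) (h0' : ∀ i, γ' i 0 = y')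
    (him : ∀ i, ∀ t ∈ Ico (0:ℝ) 1, 0 < (γ i t).im)
    (him' : ∀ i, ∀ t ∈ Ico (0:ℝ) 1, 0 < (γ' i t).im)
    (h1 : ∀ i, (γ i 1).im = 0) (h1' : ∀ i, (γ' i 1).im = 0)
    (hlt : ∀ i j, i < j → (γ i 1).re < (γ j 1).re ∧ (γ i 1).re < (γ' j 1).re ∧
      (γ' i 1).re < (γ j 1).re ∧ (γ' i 1).re < (γ' j 1).re) :
    ∃ i j, i ≠ j ∧ ∃ s ∈ Icc (0:ℝ) 1, ∃ t ∈ Icc (0:ℝ) 1, γ i s = γ' j t := by
  by_contra hcon
  have hd : ∀ i j, i ≠ j → ∀ s ∈ Icc (0:ℝ) 1, ∀ t ∈ Icc (0:ℝ) 1, γ i s ≠ γ' j t :=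
    fun i j hij s hs t ht he => hcon ⟨i, j, hij, s, hs, t, ht, he⟩
  -- the curves
  let A : Fin 3 → ℝ → ℂ := fun i t => γ i (cl t)
  let B : Fin 3 → ℝ → ℂ := fun j t => γ' j (cl (2*t)) + (cl (2*t-1) : ℂ) * (γ j 1 - γ' j 1)
  let C : Fin 3 → ℝ → ℂ := fun k t => -I + (cl t : ℂ) * (γ k 1 + I)
  have Ac : ∀ i, Continuous (A i) := fun i => (hc i).comp_continuous cl_cont cl_mem
  have Bc : ∀ i, Continuous (B i) := fun i => by
    have e1 : Continuous fun t : ℝ => γ' i (cl (2*t)) :=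
      (hc' i).comp_continuous (cl_cont.comp (by fun_prop)) (fun t => cl_mem _)
    have e2 : Continuous fun t : ℝ => ((cl (2*t-1) : ℝ) : ℂ) :=
      continuous_ofReal.comp (cl_cont.comp (by fun_prop))
    exact e1.add (e2.mul continuous_const)
  have Cc : ∀ i, Continuous (C i) := fun i => by
    have e2 : Continuous fun t : ℝ => ((cl t : ℝ) : ℂ) := continuous_ofReal.comp cl_cont
    exact continuous_const.add (e2.mul continuous_const)
  have AF : ∀ i t, 0 < (A i t).im ∨ A i t = γ i 1 := by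
    intro i t
    rcases (cl_mem t).2.lt_or_eq with h | h
    · exact Or.inl (him i _ ⟨(cl_mem t).1, h⟩)
    · right; show γ i (cl t) = _; rw [h]
  have BF : ∀ j t, (∃ s ∈ Icc (0:ℝ) 1, B j t = γ' j s ∧ 0 < (B j t).im) ∨
      (∃ c ∈ Icc (0:ℝ) 1, B j t = γ' j 1 + (c:ℂ) * (γ j 1 - γ' j 1)) := by
    intro j t
    rcases le_total t (1/2) with h | h
    · have e : B j t = γ' j (cl (2*t)) := by
        show γ' j (cl (2*t)) + ((cl (2*t-1) : ℝ) : ℂ) * _ = _
        rw [cl_of_le (show 2*t-1 ≤ 0 by linarith)]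
        simp
      rcases (cl_mem (2*t)).2.lt_or_eq with h2 | h2
      · exact Or.inl ⟨_, cl_mem _, e, by rw [e]; exact him' j _ ⟨(cl_mem _).1, h2⟩⟩
      · refine Or.inr ⟨0, by simp, ?_⟩
        rw [e, h2]; simp
    · refine Or.inr ⟨cl (2*t-1), cl_mem _, ?_⟩
      show γ' j (cl (2*t)) + _ = _
      rw [cl_of_ge (show 1 ≤ 2*t by linarith)]
  have CF : ∀ k t, (C k t).im < 0 ∨ C k t = γ k 1 := by
    intro k t
    rcases (cl_mem t).2.lt_or_eq with h | h
    · left
      show (-I + (cl t : ℂ) * (γ k 1 + I)).im < 0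
      simp only [add_im, neg_im, I_im, im_ofReal_mul, h1 k]
      linarith
    · right
      show (-I + (cl t : ℂ) * (γ k 1 + I)) = _
      rw [h]; push_cast; ring
  have hseg : ∀ i j, i ≠ j → ∀ c ∈ Icc (0:ℝ) 1,
      γ i 1 ≠ γ' j 1 + (c:ℂ) * (γ j 1 - γ' j 1) := by
    intro i j hij c hc he
    have hre := congrArg Complex.re he
    simp only [add_re, re_ofReal_mul, sub_re] at hre
    rcases lt_or_gt_of_ne hij with h | h
    · obtain ⟨a1, a2, a3, a4⟩ := hlt i j h
      nlinarith [hc.1, hc.2, mul_nonneg hc.1 (sub_nonneg.2 a1.le),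
        mul_nonneg (sub_nonneg.2 hc.2) (sub_nonneg.2 a2.le)]
    · obtain ⟨a1, a2, a3, a4⟩ := hlt j i h
      nlinarith [hc.1, hc.2, mul_nonneg hc.1 (sub_nonneg.2 a1.le),
        mul_nonneg (sub_nonneg.2 hc.2) (sub_nonneg.2 a3.le)]
  have hsim : ∀ j, ∀ c : ℝ, (γ' j 1 + (c:ℂ) * (γ j 1 - γ' j 1)).im = 0 := by
    intro j c
    simp [h1, h1']
  have LAB : ∀ i j, i ≠ j → ∀ s t, A i s ≠ B j t := by
    intro i j hij s t he
    rcases BF j t with ⟨r, hr, e, _⟩ | ⟨c, hc1, e⟩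
    · exact hd i j hij _ (cl_mem s) r hr (he.trans e)
    · rcases AF i s with h | h
      · rw [he, e, hsim] at h
        exact lt_irrefl _ h
      · exact hseg i j hij c hc1 (by rw [← h, he, e])
  have LAC : ∀ i k, i ≠ k → ∀ s t, A i s ≠ C k t := by
    intro i k hik s t he
    rcases AF i s with h | h <;> rcases CF k t with h' | h'
    · rw [he] at h; linarith
    · rw [he, h', h1] at h; exact lt_irrefl _ h
    · rw [← he, h, h1] at h'; exact lt_irrefl _ h'
    · have hre := congrArg Complex.re (h.symm.trans (he.trans h'))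
      rcases lt_or_gt_of_ne hik with g | g
      · have := (hlt i k g).1; linarith
      · have := (hlt k i g).1; linarith
  have LBC : ∀ j k, j ≠ k → ∀ s t, B j s ≠ C k t := by
    intro j k hjk s t he
    rcases BF j s with ⟨r, hr, e, h⟩ | ⟨c, hc1, e⟩
    · rcases CF k t with h' | h'
      · rw [he] at h; linarith
      · rw [he, h', h1] at h; exact lt_irrefl _ h
    · rcases CF k t with h' | h'
      · rw [← he, e, hsim] at h'
        exact lt_irrefl _ h'
      · exact hseg k j hjk.symm c hc1 (by rw [← h', ← he, e])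
  -- the drawing of K33
  let idx : Fin 6 → Fin 3 := ![0, 0, 0, 0, 1, 2]
  let Γ : Fin 6 → Fin 6 → ℝ → ℂ := fun a b =>
    if a = 0 then A (idx b) else if a = 1 then B (idx b) else C (idx b)
  let P : Fin 6 → ℂ := ![y, y', -I, γ 0 1, γ 1 1, γ 2 1]
  let E : Fin 6 → Fin 6 → Prop := fun a b => a < 3 ∧ 3 ≤ b
  have hidx : ∀ b d : Fin 6, 3 ≤ b → 3 ≤ d → b ≠ d → idx b ≠ idx d := by decide
  have hdis : ∀ a b c d : Fin 6, E a b → E c d → a ≠ c → b ≠ d → ∀ s t, Γ a b s ≠ Γ c d t := by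
    intro a b c d hab hcd hac hbd s t
    have hi := hidx b d hab.2 hcd.2 hbd
    have h3 : ∀ a : Fin 6, a < 3 → a = 0 ∨ a = 1 ∨ a = 2 := by decide
    have z1 : (1 : Fin 6) ≠ 0 := by decide
    have z2 : (2 : Fin 6) ≠ 0 := by decide
    have z3 : (2 : Fin 6) ≠ 1 := by decide
    rcases h3 a hab.1 with rfl | rfl | rfl <;> rcases h3 c hcd.1 with rfl | rfl | rfl
    · exact absurd rfl hac
    · simp only [Γ, if_true, if_neg z1]; exact LAB _ _ hi s t
    · simp only [Γ, if_true, if_neg z2, if_neg z3]; exact LAC _ _ hi s t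
    · simp only [Γ, if_true, if_neg z1]; exact (LAB _ _ hi.symm t s).symm
    · exact absurd rfl hac
    · simp only [Γ, if_true, if_neg z1, if_neg z2, if_neg z3]; exact LBC _ _ hi s t
    · simp only [Γ, if_true, if_neg z2, if_neg z3]; exact (LAC _ _ hi.symm t s).symm
    · simp only [Γ, if_true, if_neg z1, if_neg z2, if_neg z3]; exact (LBC _ _ hi.symm t s).symm
    · exact absurd rfl hac
  have hE1 : ∀ a b, E a b → ∀ x, x = b → Γ a b 1 = P x := by
    have hpt : ∀ b : Fin 6, 3 ≤ b → P b = γ (idx b) 1 := by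
      have h3 : ∀ b : Fin 6, 3 ≤ b → b = 3 ∨ b = 4 ∨ b = 5 := by decide
      intro b hb
      rcases h3 b hb with rfl | rfl | rfl <;> rfl
    intro a b hab x hx
    subst hx
    rw [hpt x hab.2]
    have e2 : cl (2*1) = 1 := cl_of_ge (by norm_num)
    have e3 : cl (2*1-1) = 1 := cl_of_ge (by norm_num)
    simp only [Γ, A, B, C]
    split_ifs
    · show γ (idx x) (cl 1) = _
      rw [cl_one]
    · show γ' (idx x) (cl (2*1)) + ((cl (2*1-1) : ℝ) : ℂ) * _ = _
      rw [e2, e3]; push_cast; ring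
    · show -I + ((cl 1 : ℝ) : ℂ) * _ = _
      rw [cl_one]; push_cast; ring
  have hE0 : ∀ a b, E a b → Γ a b 0 = P a := by
    have h3 : ∀ a : Fin 6, a < 3 → a = 0 ∨ a = 1 ∨ a = 2 := by decide
    have z1 : (1 : Fin 6) ≠ 0 := by decide
    have z2 : (2 : Fin 6) ≠ 0 := by decide
    have z3 : (2 : Fin 6) ≠ 1 := by decide
    intro a b hab
    have e2 : cl (2*0) = 0 := cl_of_le (by norm_num)
    have e3 : cl (2*0-1) = 0 := cl_of_le (by norm_num)
    rcases h3 a hab.1 with rfl | rfl | rfl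
    · simp only [Γ, A, if_true]; rw [cl_zero, h0]; rfl
    · simp only [Γ, B, if_neg z1, if_true]; rw [e2, e3, h0']
      show y' + ((0:ℝ):ℂ) * _ = y'
      push_cast; ring
    · simp only [Γ, C, if_neg z2, if_neg z3]; rw [cl_zero]
      show -I + ((0:ℝ):ℂ) * _ = -I
      push_cast; ring
  have hΓc : ∀ a b, Continuous (Γ a b) := by
    intro a b
    simp only [Γ]
    split_ifs
    · exact Ac _
    · exact Bc _
    · exact Cc _
  -- a vertex lies on an edge avoiding a given edge / vertex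
  have hexA : ∀ b : Fin 6, ∃ d : Fin 6, 3 ≤ d ∧ b ≠ d := by decide
  have hexB : ∀ a : Fin 6, ∃ d : Fin 6, d < 3 ∧ a ≠ d := by decide
  have hv : ∀ a b c, a < b → E a b → c ≠ a → c ≠ b → ∀ t, Γ a b t ≠ P c := by
    intro a b c _ hab hca hcb t
    rcases lt_or_ge c 3 with h | h
    · obtain ⟨d, hd3, g2⟩ := hexA b
      rw [← hE0 c d ⟨h, hd3⟩]; exact hdis a b c d hab ⟨h, hd3⟩ hca.symm g2 t 0
    · obtain ⟨d, hd3, g2⟩ := hexB a
      rw [← hE1 d c ⟨hd3, h⟩ c rfl]; exact hdis a b d c hab ⟨hd3, h⟩ g2 hcb.symm t 1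
  have hP : Function.Injective P := by
    intro c c' hcc
    by_contra hne
    have hne' : c' ≠ c := fun h => hne h.symm
    rcases lt_or_ge c 3 with h | h
    · obtain ⟨d, hd3, g2⟩ := hexA c'
      exact hv c d c' (lt_of_lt_of_le h hd3) ⟨h, hd3⟩ hne' g2 0 ((hE0 c d ⟨h, hd3⟩).trans hcc)
    · obtain ⟨d, hd3, g2⟩ := hexB c'
      exact hv d c c' (lt_of_lt_of_le hd3 h) ⟨hd3, h⟩ g2 hne' 1
        ((hE1 d c ⟨hd3, h⟩ c rfl).trans hcc)
  obtain ⟨m, hm⟩ := exists_labels P hP E Γ (fun a b _ _ => hΓc a b) (fun a b _ h => hE0 a b h)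
    (fun a b _ h => hE1 a b h b rfl) hv
  have R : ∀ a b c d : Fin 6, (a < 3 ∧ 3 ≤ b) → (c < 3 ∧ 3 ≤ d) → a ≠ c → b ≠ d →
      beta a b c d = m a b c + m a b d + m c d a + m c d b := by
    intro a b c d hab hcd g1 g2
    exact hm a b c d (lt_of_lt_of_le hab.1 hab.2) (lt_of_lt_of_le hcd.1 hcd.2) hab hcd g1
      (fun h => absurd (h ▸ hab.1) (not_lt.2 hcd.2)) (fun h => absurd (h ▸ hcd.1) (not_lt.2 hab.2))
      g2 (hdis a b c d hab hcd g1 g2)
  have h0 := R 0 3 1 4 (by decide) (by decide) (by decide) (by decide)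
  rw [show beta (0 : Fin 6) 3 1 4 = 1 from by decide] at h0
  have h1 := R 0 3 1 5 (by decide) (by decide) (by decide) (by decide)
  rw [show beta (0 : Fin 6) 3 1 5 = 1 from by decide] at h1
  have h2 := R 0 4 1 3 (by decide) (by decide) (by decide) (by decide)
  rw [show beta (0 : Fin 6) 4 1 3 = 0 from by decide] at h2
  have h3 := R 0 4 1 5 (by decide) (by decide) (by decide) (by decide)
  rw [show beta (0 : Fin 6) 4 1 5 = 1 from by decide] at h3
  have h4 := R 0 5 1 3 (by decide) (by decide) (by decide) (by decide)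
  rw [show beta (0 : Fin 6) 5 1 3 = 0 from by decide] at h4
  have h5 := R 0 5 1 4 (by decide) (by decide) (by decide) (by decide)
  rw [show beta (0 : Fin 6) 5 1 4 = 0 from by decide] at h5
  have h6 := R 0 3 2 4 (by decide) (by decide) (by decide) (by decide)
  rw [show beta (0 : Fin 6) 3 2 4 = 1 from by decide] at h6
  have h7 := R 0 3 2 5 (by decide) (by decide) (by decide) (by decide)
  rw [show beta (0 : Fin 6) 3 2 5 = 1 from by decide] at h7
  have h8 := R 0 4 2 3 (by decide) (by decide) (by decide) (by decide)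
  rw [show beta (0 : Fin 6) 4 2 3 = 0 from by decide] at h8
  have h9 := R 0 4 2 5 (by decide) (by decide) (by decide) (by decide)
  rw [show beta (0 : Fin 6) 4 2 5 = 1 from by decide] at h9
  have h10 := R 0 5 2 3 (by decide) (by decide) (by decide) (by decide)
  rw [show beta (0 : Fin 6) 5 2 3 = 0 from by decide] at h10
  have h11 := R 0 5 2 4 (by decide) (by decide) (by decide) (by decide)
  rw [show beta (0 : Fin 6) 5 2 4 = 0 from by decide] at h11
  have h12 := R 1 3 2 4 (by decide) (by decide) (by decide) (by decide)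
  rw [show beta (1 : Fin 6) 3 2 4 = 1 from by decide] at h12
  have h13 := R 1 3 2 5 (by decide) (by decide) (by decide) (by decide)
  rw [show beta (1 : Fin 6) 3 2 5 = 1 from by decide] at h13
  have h14 := R 1 4 2 3 (by decide) (by decide) (by decide) (by decide)
  rw [show beta (1 : Fin 6) 4 2 3 = 0 from by decide] at h14
  have h15 := R 1 4 2 5 (by decide) (by decide) (by decide) (by decide)
  rw [show beta (1 : Fin 6) 4 2 5 = 1 from by decide] at h15
  have h16 := R 1 5 2 3 (by decide) (by decide) (by decide) (by decide)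
  rw [show beta (1 : Fin 6) 5 2 3 = 0 from by decide] at h16
  have h17 := R 1 5 2 4 (by decide) (by decide) (by decide) (by decide)
  rw [show beta (1 : Fin 6) 5 2 4 = 0 from by decide] at h17
  have two : (2 : ZMod 2) = 0 := rfl
  have one : (1 : ZMod 2) = 0 := by
    linear_combination h0 + h1 + h2 + h3 + h4 + h5 + h6 + h7 + h8 + h9 + h10 + h11 + h12 + h13 + h14 + h15 + h16 + h17 + ((m 0 3 1 + m 0 3 2 + m 0 3 4 + m 0 3 5 + m 0 4 1 + m 0 4 2 + m 0 4 3 + m 0 4 5 + m 0 5 1 + m 0 5 2 + m 0 5 3 + m 0 5 4 + m 1 3 0 + m 1 3 2 + m 1 3 4 + m 1 3 5 + m 1 4 0 + m 1 4 2 + m 1 4 3 + m 1 4 5 + m 1 5 0 + m 1 5 2 + m 1 5 3 + m 1 5 4 + m 2 3 0 + m 2 3 1 + m 2 3 4 + m 2 3 5 + m 2 4 0 + m 2 4 1 + m 2 4 3 + m 2 4 5 + m 2 5 0 + m 2 5 1 + m 2 5 3 + m 2 5 4) - 4) * two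
  exact one_ne_zero one

end Pool.Agent.H672R3.Task571D
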